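import Pool.Agent.Lib.MP_751085_ag.ZF.Z.GDefs
import Pool.Agent.Lib.MP_751085_ag.ZF.C.Defs

/-! Cocycles in roots of unity and the lifting of covers along a hyperplane. -/

namespace Pool.Agent.ZFy

open Pool.Agent.ZCy
open scoped Classical WithZero Polynomial
open groupCohomology

/-- a cocycle in roots of unity of order `m` on a Galois extension `E` of the rational function
field that is unramified off `Θ` -/
structure MuC {K ι : Type} [Field K] (Θ : MP ι K) (F : Type) [Field F] [Algebra (RF ι K) F] :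
    Type 1 where
  E : Type
  [fld : Field E]
  [algL : Algebra (RF ι K) E]
  [algF : Algebra F E]
  [tow : IsScalarTower (RF ι K) F E]
  [fin : FiniteDimensional (RF ι K) E]
  [gal : IsGalois (RF ι K) E]
  m : ℕ
  c : (E ≃ₐ[F] E) × (E ≃ₐ[F] E) → Eˣ
  hm : (m : K) ≠ 0
  unr : UnrOff (RF ι K) (toE (MP ι K) E) Θ
  coc : IsMulCocycle₂ c
  pow : ∀ p, c p ^ m = 1

attribute [instance] MuC.fld MuC.algL MuC.algF MuC.tow MuC.fin MuC.gal

variable {k σ : Type} [Field k] [Fintype σ]

/-- `T'` is the field `T` in the coordinates given by the linear change `L` -/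
def Tw (L : Matrix σ σ k) (T T' : Type) [Field T] [Field T'] [Algebra (RF (Option σ) k) T]
    [Algebra (RF (Option σ) k) T'] : Prop :=
  ∃ e : T ≃+* T', ∀ p, e (toE (MP (Option σ) k) T p) = toE (MP (Option σ) k) T' (aff 0 (extM L) p)

/-- `ρ` is a residue map of `T` along the hyperplane `ξ_1 = 0` with values in `Ω ⊇ EH` -/
structure HRes {T EH Ω : Type} [Field T] [Field EH] [Field Ω]
    [Algebra (RF (Option (Option σ)) k) T] [Algebra (RF (Option σ) k) EH] (w : Vl T)
    (ρ : w.integer →+* Ω) (j : EH →+* Ω) : Prop where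
  cen : Cen (toE (MP (Option (Option σ)) k) T) w (MvPolynomial.X (some none))
  red : IsRed w ρ
  base : ∀ (p : MP (Option (Option σ)) k) (y : w.integer), (y : T) = toE _ T p →
    ρ y = j (toE (MP (Option σ) k) EH (hyp p))

variable (k σ) in
/-- `EH` contains the residue field of `T` along the hyperplane, and is an `l`-extension of the
field generated by it and the constants -/
def LOver (l : ℕ) (T EH : Type) [Field T] [Field EH] [Algebra (RF (Option (Option σ)) k) T]
    [Algebra (RF (Option σ) k) EH] : Prop :=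
  ∃ (w : Vl T) (ρ : w.integer →+* EH), HRes (k := k) (σ := σ) w ρ (RingHom.id EH) ∧
    LXt l (RF (Option σ) k) (Set.range ρ ∪
      {z | ((toE (MP (Option σ) k) EH).comp MvPolynomial.C).IsIntegralElem z})

/-- the decomposition and inertia groups along the branch locus are seen on the hyperplane -/
def DL (Θ : MP (Option (Option σ)) k) {E : Type} [Field E] [Algebra (RF (Option (Option σ)) k) E]
    (w : Vl E) : Prop :=
  ∀ (P : MP (Option (Option σ)) k) (W : Vl E), Prime P → P ∣ flp Θ →
    Cen (flpHom (toE (MP (Option (Option σ)) k) E)) W P →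
    ∃ (Ω : Type) (_ : Field Ω) (ρ : w.integer →+* Ω) (V : Vl Ω), IsRed w ρ ∧
      (∀ (a : k) (y : w.integer), a ≠ 0 →
        (y : E) = toE (MP (Option (Option σ)) k) E (MvPolynomial.C a) → V (ρ y) = 1) ∧
      (∀ g ∈ Dec (RF (Option (Option σ)) k) W, ∀ y y' : w.integer, (y' : E) = g y →
        V (ρ y') = V (ρ y)) ∧
      ∀ n ∈ Ine (RF (Option (Option σ)) k) W, ∀ y y' : w.integer, (y' : E) = n y → V (ρ y) ≤ 1 →
        V (ρ y' - ρ y) < 1

/-- `l`-covers of the hyperplane `ξ_1 = 0` relative to `T` lift -/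
def ZLat (l : ℕ) (Θ : MP (Option (Option σ)) k) (T : Type) [Field T]
    [Algebra (RF (Option (Option σ)) k) T] : Prop :=
  ∀ (EH : Type) [Field EH] [Algebra (RF (Option σ) k) EH] [FiniteDimensional (RF (Option σ) k) EH]
    [IsGalois (RF (Option σ) k) EH], UnrOff (RF (Option σ) k) (toE (MP (Option σ) k) EH) (hyp Θ) →
    LOver k σ l T EH → ∃ (E : Type) (_ : Field E) (_ : Algebra (RF (Option (Option σ)) k) E)
      (_ : FiniteDimensional (RF (Option (Option σ)) k) E)
      (_ : IsGalois (RF (Option (Option σ)) k) E) (_ : T →ₐ[RF (Option (Option σ)) k] E) (w : Vl E)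
      (Ω : Type) (_ : Field Ω) (ρ : w.integer →+* Ω) (j : EH →+* Ω),
      UnrOff (RF (Option (Option σ)) k) (toE (MP (Option (Option σ)) k) E) Θ ∧
      Inert (RF (Option (Option σ)) k) (toE (MP (Option (Option σ)) k) E)
        (MvPolynomial.X (some none)) ∧ HRes (k := k) (σ := σ) w ρ j ∧ j.range ≤ ρ.range ∧
      (∀ (m : ℕ) (z : EH), (m : k) ≠ 0 → z ^ m = 1 →
        ∃ y : w.integer, (y : E) ^ m = 1 ∧ ρ y = j z) ∧ DL Θ w

end Pool.Agent.ZFy
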