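import Pool.Agent.Lib.MP_751085_ag.ZC.L.Lift
import Pool.Agent.Lib.MP_751085_ag.ZF.L.Defs

/-! The lifted cocycle. -/

namespace Pool.Agent.ZFy

open Pool.Agent.ZCy
open scoped Classical WithZero Polynomial
open groupCohomology

set_option linter.unusedSectionVars false

variable {k σ : Type} [Field k] [Fintype σ] {Θ : MP (Option (Option σ)) k} {F' : Type} [Field F']
  [Algebra (RF (Option (Option σ)) k) F'] {FY : Type} [Field FY] [Algebra (RF (Option σ) k) FY]

/-- the cocycle of `R` reduces along the hyperplane to the cocycle of `R'` -/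
structure LiftF (θ : F') (θY : FY) (R' : MuC (hyp Θ) FY) (R : MuC Θ F') : Type 1 where
  w : Vl R.E
  Ω : Type
  [fld : Field Ω]
  ρ : w.integer →+* Ω
  j : R'.E →+* Ω
  π : (R.E ≃ₐ[F'] R.E) →* R'.E ≃ₐ[FY] R'.E
  cen : Cen (toE (MP (Option (Option σ)) k) R.E) w (MvPolynomial.X (some none))
  inert : Inert (RF (Option (Option σ)) k) (toE (MP (Option (Option σ)) k) R.E)
    (MvPolynomial.X (some none))
  red : IsRed w ρ
  rng : j.range ≤ ρ.range
  base : ∀ (p : MP (Option (Option σ)) k) (y : w.integer), (y : R.E) = toE _ R.E p →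
    ρ y = j (toE (MP (Option σ) k) R'.E (hyp p))
  th : ∃ y : w.integer, (y : R.E) = algebraMap F' R.E θ ∧ ρ y = j (algebraMap FY R'.E θY)
  eqv : ∀ (g : R.E ≃ₐ[F'] R.E) (y : w.integer) (z : R'.E), ρ y = j z →
    ∃ y' : w.integer, (y' : R.E) = g y ∧ ρ y' = j (π g z)
  m_eq : R.m = R'.m
  coc : ∀ p, ∃ y : w.integer, (y : R.E) = R.c p ∧ ρ y = j (R'.c (π p.1, π p.2))
  root : ∀ z : R'.E, z ^ R'.m = 1 → ∃ y : w.integer, (y : R.E) ^ R'.m = 1 ∧ ρ y = j z
  dl : DL Θ w

attribute [instance] LiftF.fld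

theorem MuC.m_ne {K ι : Type} [Field K] {Θ : MP ι K} {F : Type} [Field F] [Algebra (RF ι K) F]
    (R : MuC Θ F) : R.m ≠ 0 := fun h => R.hm (by rw [h, Nat.cast_zero])

/-- a natural number that is not zero in `k` is a unit at every valuation of `k[ξ]` -/
theorem nat_val {K ι E : Type} [Field K] [Field E] {φ : MP ι K →+* E} {w : Vl E}
    (h : ∀ a, w (φ a) ≤ 1) {n : ℕ} (hn : (n : K) ≠ 0) : w (n : E) = 1 := by
  have e : w (φ (MvPolynomial.C (n : K))) * w (φ (MvPolynomial.C (n : K)⁻¹)) = 1 := by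
    rw [← map_mul, ← map_mul, ← map_mul, mul_inv_cancel₀ hn, map_one, map_one, map_one]
  have e2 : φ (MvPolynomial.C (n : K)) = n := by rw [map_natCast, map_natCast]
  rw [e2] at e
  refine le_antisymm (e2 ▸ h _) ?_
  calc (1 : ℤᵐ⁰) = w (n : E) * w (φ (MvPolynomial.C (n : K)⁻¹)) := e.symm
    _ ≤ w (n : E) * 1 := mul_le_mul_right (h _) _
    _ = w (n : E) := mul_one _

theorem exists_liftF {l : ℕ} {T : Type} [Field T] [Algebra (RF (Option (Option σ)) k) T]
    (hZ : ZLat l Θ T) {c : PChart k (Option σ)} {c' : PChart k σ} (hh : c.IsHyp c') (hG : c.GI)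
    (hT : (c.χ.map (toE (MP (Option (Option σ)) k) T)).Splits) {θ : F'} (hF : c.FF F' θ) {θY : FY}
    (hF' : c'.FF FY θY) (R' : MuC (hyp Θ) FY) (hL : LOver k σ l T R'.E) :
    ∃ R : MuC Θ F', Nonempty (LiftF θ θY R' R) := by
  have hto : ∀ p, toE (MP (Option σ) k) R'.E p = algebraMap FY R'.E (toE _ FY p) := fun p =>
    IsScalarTower.algebraMap_apply _ FY _ _
  have hθ : c'.χ.eval₂ (toE (MP (Option σ) k) R'.E) (algebraMap FY R'.E θY) = 0 := by
    rw [show toE (MP (Option σ) k) R'.E = (algebraMap FY R'.E).comp (toE _ FY) from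
      RingHom.ext hto, ← Polynomial.hom_eval₂, hF'.1, map_zero]
  obtain ⟨E, _, _, _, _, i, w, Ω, _, ρ, j, hU, hin, ⟨hc, hr, hb⟩, hj, hro, hdl⟩ :=
    hZ R'.E R'.unr hL
  let φ : MP (Option (Option σ)) k →+* w.integer := (toE _ E).codRestrict w.integer hc.1
  have hφ : ρ.comp φ = j.comp ((toE (MP (Option σ) k) R'.E).comp hyp) :=
    RingHom.ext fun p => hb p _ rfl
  have hS : (c.χ.map (w.integer.subtype.comp φ)).Splits := by
    have := hT.map (i : T →+* E)
    rwa [Polynomial.map_map, ← RingHom.comp_assoc, i.comp_algebraMap] at this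
  obtain ⟨y₀, hy₀, hyθ⟩ := IsRed.root_lift (ρ := ρ) φ c.monic hS
    (z := j (algebraMap FY R'.E θY)) (by
      rw [hφ, ← Polynomial.hom_eval₂, ← Polynomial.eval₂_map, ← hh.χ, hθ, map_zero])
  obtain ⟨γ, hγ, hγθ⟩ := hF.lift hG (toE_inj E) (η := (y₀ : E)) (by
    have := congrArg w.integer.subtype hy₀
    rwa [Polynomial.hom_eval₂, map_zero] at this)
  let : Algebra F' E := γ.toAlgebra
  have : IsScalarTower (RF (Option (Option σ)) k) F' E := IsScalarTower.of_algebraMap_eq'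
    (IsLocalization.ringHom_ext (nonZeroDivisors (MP (Option (Option σ)) k))
      (RingHom.ext fun p => (hγ p).symm))
  have hth : ∃ y : w.integer, (y : E) = algebraMap F' E θ ∧ ρ y = j (algebraMap FY R'.E θY) :=
    ⟨y₀, hγθ.symm, hyθ⟩
  replace hro := fun z => hro R'.m z R'.hm
  have hg : ∀ (g : E ≃ₐ[F'] E) x, w (g x) = w x := fun g =>
    (hin w hc).ge (Subgroup.mem_top (g.restrictScalars _))
  have := IsGalois.tower_top_of_isGalois (RF (Option σ) k) FY R'.E
  have key : ∀ g : E ≃ₐ[F'] E, ∃ π : R'.E ≃ₐ[FY] R'.E, ∀ (y : w.integer) z, ρ y = j z →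
      ρ (lift_act g (hg g) y) = j (π z) := fun g => by
    obtain ⟨j', hj'⟩ := hr.transfer (ρ' := ρ.comp (lift_act g (hg g)))
      (fun y => (hr _).trans (by rw [← hg g y]; rfl)) hj
    have fx : ∀ (y : w.integer) (a : F') z, (y : E) = algebraMap F' E a → ρ y = j z →
        j' z = j z := fun y a z e e' => by
      rw [← hj' y z e', ← e']
      refine congrArg ρ (Subtype.ext ?_)
      change g y = y
      rw [e, g.commutes]
    obtain ⟨π, hπ⟩ := lift_norm (F := FY) j j' (hF'.ext (fun p => by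
      obtain ⟨q, rfl⟩ := lz_hyp_surj p
      exact fx ⟨_, hc.1 q⟩ (toE _ F' q) _ (IsScalarTower.algebraMap_apply _ F' _ _)
        ((hb q _ rfl).trans (congrArg j (hto _))))
      (by
        obtain ⟨y, e, e'⟩ := hth
        exact fx y θ _ e e'))
    exact ⟨π, fun y z e => (hj' y z e).trans (hπ z).symm⟩
  choose π hπ using key
  have hmul : ∀ g g', π (g * g') = π g * π g' := fun g g' => AlgEquiv.ext fun z => by
    obtain ⟨y, e⟩ := hj ⟨z, rfl⟩
    exact j.injective ((hπ _ y z e).symm.trans (hπ g _ _ (hπ g' y z e)))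
  choose y hy hy' using fun p : (E ≃ₐ[F'] E) × (E ≃ₐ[F'] E) => hro (R'.c (π p.1, π p.2))
    (by rw [← Units.val_pow_eq_pow_val, R'.pow, Units.val_one])
  have h0 : ∀ p, (y p : E) ≠ 0 := fun p e => by
    have := hy p
    rw [e, zero_pow R'.m_ne] at this
    exact zero_ne_one this
  have hm : w (R'.m : E) = 1 := nat_val hc.1 R'.hm
  have hco : IsMulCocycle₂ fun p => Units.mk0 (y p : E) (h0 p) := fun a b d => by
    have := hr.root_inj hm (y := y (a * b, d) * y (a, b))
      (y' := lift_act a (hg a) (y (b, d)) * y (a, b * d))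
      (by rw [Subring.coe_mul, mul_pow, hy, hy, mul_one])
      (by
        change (a (y (b, d)) * _) ^ _ = _
        rw [mul_pow, ← map_pow, hy, hy, map_one, mul_one])
      (by
        rw [map_mul, map_mul, hπ a _ _ (hy' _), hy', hy', hy', ← map_mul, ← map_mul, hmul, hmul]
        exact congrArg (fun u : R'.Eˣ => j u) (R'.coc (π a) (π b) (π d)))
    exact Units.ext (congrArg Subtype.val this)
  exact ⟨⟨E, R'.m, _, R'.hm, hU, hco, fun p => Units.ext (hy p)⟩,
    ⟨⟨w, Ω, ρ, j, MonoidHom.mk' π hmul, hc, hin, hr, hj, hb, hth,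
      fun g y z e => ⟨_, rfl, hπ g y z e⟩, rfl, fun p => ⟨y p, rfl, hy' p⟩, hro, hdl⟩⟩⟩

end Pool.Agent.ZFy
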