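import Pool.Agent.Lib.MP_751085_ag.ZC.L.Rep
import Pool.Agent.Lib.MP_751085_ag.ZC.V.Pur
import Pool.Agent.Lib.MP_751085_ag.ZF.L.Defs

/-! A cocycle in roots of unity along the germs at a good point, in any characteristic. -/

namespace Pool.Agent.ZFy

open Pool.Agent.ZCy
open scoped Classical WithZero Polynomial
open groupCohomology

set_option linter.unusedSectionVars false

/-- roots of unity are constants -/
theorem ps_rootF {M τ : Type} [Field M] [Finite τ] {m : ℕ} (hm : (m : M) ≠ 0) {y : MvPowerSeries τ M}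
    (h : y ^ m = 1) : y = MvPowerSeries.C (MvPowerSeries.constantCoeff y) := by
  set c := MvPowerSeries.constantCoeff y with hc
  have h1 : c ^ m = 1 := by rw [hc, ← map_pow, h, map_one]
  have h0 : c ≠ 0 := fun e => by
    rw [e, zero_pow fun u => hm (by rw [u, Nat.cast_zero])] at h1
    exact zero_ne_one h1
  have h2 := (Commute.all y (MvPowerSeries.C c)).geom_sum₂_mul m
  rw [h, ← map_pow, h1, map_one, sub_self, mul_eq_zero] at h2
  refine sub_eq_zero.1 (h2.resolve_left fun e => ?_)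
  have h3 := congrArg MvPowerSeries.constantCoeff e
  simp only [map_sum, map_mul, map_pow, MvPowerSeries.constantCoeff_C, ← hc, map_zero,
    geom_sum₂_self] at h3
  exact mul_ne_zero hm (pow_ne_zero _ h0) h3

theorem zneF {k ι E : Type} [Field k] [Fintype ι] [Field E]
    [Algebra (RF ι k) E] [FiniteDimensional (RF ι k) E] [IsGalois (RF ι k) E] {Θ : MP ι k}
    (hU : UnrOff (RF ι k) (toE (MP ι k) E) Θ) {M : Type} [Field M] [Algebra k M] {a : ι → M}
    (ha : MvPolynomial.aeval a Θ ≠ 0) {χ : (MP ι k)[X]} (hm : χ.Monic)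
    (hi : Irreducible (χ.map (algebraMap (MP ι k) (RF ι k)))) {θ : E}
    (hθ : χ.eval₂ (toE (MP ι k) E) θ = 0) {θ₀ : M} (h0 : ev (algebraMap k M) a θ₀ χ = 0) :
    ∃ (M' : Type) (_ : Field M') (_ : Algebra M M') (_ : FiniteDimensional M M') (_ : IsGalois M M')
      (J₀ : E → M') (r : (M' ≃ₐ[M] M') → E ≃ₐ[RF ι k] E), J₀ θ = algebraMap M M' θ₀ ∧
      ∀ (τ : Type) [Finite τ] (ψ : MP ι k →+* MvPowerSeries τ M),
        (∀ u, ψ (MvPolynomial.C u) = MvPowerSeries.C (algebraMap k M u)) → Function.Injective ψ →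
        (∀ i, MvPowerSeries.constantCoeff (ψ (MvPolynomial.X i)) = a i) →
        ∃ J : E →+* Fr (MvPowerSeries τ M'),
          (∀ p, J (toE _ E p) = algebraMap (MvPowerSeries τ M') _
            (MvPowerSeries.map (algebraMap M M') (ψ p))) ∧
          (∀ b, (toE (MP ι k) E).IsIntegralElem b → ∃ y : MvPowerSeries τ M',
            J b = algebraMap _ _ y ∧ MvPowerSeries.constantCoeff y = J₀ b) ∧
          ∀ (s : M' ≃ₐ[M] M') (T : Fr (MvPowerSeries τ M') →+* Fr (MvPowerSeries τ M')),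
            (∀ y : MvPowerSeries τ M', T (algebraMap _ _ y) =
              algebraMap _ _ (MvPowerSeries.map (s : M' →+* M') y)) → ∀ z, J (r s z) = T (J z) := by
  obtain ⟨M', _, _, _, _, J₁, hJ₁, -⟩ := znp (isFr_alg (MP ι k) (RF ι k)) hU (algebraMap k M) a ha
  let _ : Algebra (MP ι k) E := (toE (MP ι k) E).toAlgebra
  have : IsScalarTower (MP ι k) (RF ι k) E := IsScalarTower.of_algebraMap_eq fun _ => rfl
  have := integralClosure.isFractionRing_of_finite_extension (A := MP ι k) (RF ι k) E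
  have hd : ∀ τ : Type, IsDomain (MvPowerSeries τ M') := fun _ => NoZeroDivisors.to_isDomain _
  have := hd ι
  have := lv_normal M' ι
  let t : MP ι k →+* MvPowerSeries ι M' :=
    (MvPowerSeries.map (algebraMap M M')).comp (tay (algebraMap k M) a)
  have hmin : χ.map (algebraMap (MP ι k) (RF ι k)) = minpoly (RF ι k) θ :=
    minpoly.eq_of_irreducible_of_monic hi (by
      rw [Polynomial.aeval_def, Polynomial.eval₂_map]; exact hθ) (hm.map _)
  obtain ⟨j₁, hj₁, hj₁'⟩ := zne_int (t := t) (J := J₁) hJ₁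
  obtain ⟨b₁, hb₁, hc₁⟩ := zne_root (MvPowerSeries.constantCoeff.comp j₁) hm
    (z := algebraMap M M' θ₀) (by
      have h1 := Normal.splits (inferInstance : Normal (RF ι k) E) θ
      rwa [← hmin, Polynomial.map_map] at h1) (by
      have e : (MvPowerSeries.constantCoeff.comp j₁).comp (algebraMap (MP ι k) _) =
          (algebraMap M M').comp (MvPolynomial.eval₂Hom (algebraMap k M) a) :=
        RingHom.ext fun p => by
          show MvPowerSeries.constantCoeff (j₁ (algebraMap (MP ι k) _ p)) = _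
          rw [hj₁']
          exact (MvPowerSeries.constantCoeff_map _ _).trans (congrArg _ (tay_cc _ _ _))
      rw [e, ← Polynomial.hom_eval₂]
      exact (congrArg _ h0).trans (map_zero _))
  obtain ⟨g, hg⟩ := minpoly.exists_algEquiv_of_root' (K := RF ι k) (x := (b₁ : E)) (y := θ)
    (Algebra.IsAlgebraic.isAlgebraic θ) (by
      rw [← hmin, Polynomial.aeval_def, Polynomial.eval₂_map]; exact hb₁)
  let J : E →+* Fr (MvPowerSeries ι M') := J₁.comp (g : E →+* E)
  have hJ : ∀ p, J (algebraMap (MP ι k) E p) = algebraMap _ _ (t p) := fun p =>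
    (congrArg J₁ (g.commutes _)).trans (hJ₁ p)
  obtain ⟨j, hj, hj'⟩ := zne_int hJ
  have hi' := IsFractionRing.injective (MvPowerSeries ι M') (Fr (MvPowerSeries ι M'))
  have hfix : ∀ (τ : Type) (s : M' ≃ₐ[M] M') (y : MvPowerSeries τ M),
      MvPowerSeries.map (s : M' →+* M') (MvPowerSeries.map (algebraMap M M') y) =
        MvPowerSeries.map (algebraMap M M') y := fun τ s y => by
    rw [← RingHom.comp_apply, ← MvPowerSeries.map_comp]
    exact congrArg (fun φ => MvPowerSeries.map φ y) (RingHom.ext s.commutes)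
  have hint : ∀ (r : E ≃ₐ[RF ι k] E) (b : integralClosure (MP ι k) E),
      r b ∈ integralClosure (MP ι k) E := fun r b => b.2.map (r.restrictScalars (MP ι k))
  have hr : ∀ s : M' ≃ₐ[M] M', ∃ r : E ≃ₐ[RF ι k] E, ∀ b : integralClosure (MP ι k) E,
      j ⟨r b, hint r b⟩ = MvPowerSeries.map (s : M' →+* M') (j b) := fun s => by
    obtain ⟨T, hT⟩ := ps_lift (τ := ι) (s : M' →+* M')
    obtain ⟨r, hr⟩ := zne_norm (K := RF ι k) J (T.comp J)
      (IsLocalization.ringHom_ext (nonZeroDivisors (MP ι k)) (RingHom.ext fun p => by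
        show T (J (algebraMap (MP ι k) E p)) = J (algebraMap (MP ι k) E p)
        rw [hJ, hT]
        exact congrArg _ (hfix ι s _)))
    refine ⟨r, fun b => hi' ?_⟩
    rw [hj, ← hT, hj]
    exact hr b
  choose r hr using hr
  have hθi : θ ∈ integralClosure (MP ι k) E := ⟨χ, hm, hθ⟩
  refine ⟨M', inferInstance, inferInstance, inferInstance, inferInstance,
    fun b => if h : b ∈ integralClosure (MP ι k) E then MvPowerSeries.constantCoeff (j ⟨b, h⟩)
      else 0, r, ?_, fun τ _ ψ hC hψ hX => ?_⟩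
  · have e : j ⟨θ, hθi⟩ = j₁ b₁ := hi' (by rw [hj, hj₁, ← hg]; rfl)
    simp only [dif_pos hθi]
    rw [e]
    exact hc₁
  have := hd τ
  obtain ⟨S, hS1, hS2, hS3, hS4⟩ := ps_subst (M := M') (fun i => MvPowerSeries.map
    (algebraMap M M') (ψ (MvPolynomial.X i) - MvPowerSeries.C (a i))) fun i => by
      rw [MvPowerSeries.constantCoeff_map, map_sub, hX, MvPowerSeries.constantCoeff_C, sub_self,
        map_zero]
  have e : (S.comp j).comp (algebraMap (MP ι k) _) =
      (MvPowerSeries.map (algebraMap M M')).comp ψ := by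
    have e1 : (S.comp j).comp (algebraMap (MP ι k) _) = S.comp t :=
      RingHom.ext fun p => congrArg S (hj' p)
    rw [e1]
    refine MvPolynomial.ringHom_ext (fun u => ?_) fun i => ?_
    · simp [t, tay, hS1, hC]
    · simp [t, tay, hS1, hS2]
  obtain ⟨J', hJ'⟩ := zne_ext (S.comp j) (by
    rw [e]; exact (ps_map_inj (algebraMap M M')).comp hψ)
  refine ⟨J', fun p => ?_, fun b hb => ⟨S (j ⟨b, hb⟩), hJ' ⟨b, hb⟩, ?_⟩, fun s T hT z => ?_⟩
  · exact (hJ' (algebraMap (MP ι k) _ p)).trans (congrArg _ (DFunLike.congr_fun e p))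
  · have hb' : b ∈ integralClosure (MP ι k) E := hb
    simp only [dif_pos hb']
    exact hS3 _
  · have h1 : J'.comp (r s : E →+* E) = T.comp J' :=
      IsLocalization.ringHom_ext (nonZeroDivisors (integralClosure (MP ι k) E))
        (RingHom.ext fun b => by
          show J' (⟨r s b, hint _ b⟩ : integralClosure (MP ι k) E) = T (J' b)
          rw [hJ', hJ', hT, RingHom.comp_apply, RingHom.comp_apply, hr,
            hS4 _ fun i => hfix τ s _])
    exact DFunLike.congr_fun h1 z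

variable {k : Type} [Field k] {X : Var k} {σ : Type} [Fintype σ]
  {c : Chart k σ X.N (X.IK k)} {F' : Type} [Field F'] [Algebra (RF (Option σ) k) F'] [Algebra k F']
  {θ : F'} {γ : X.F →+* F'} {Θ : MP (Option σ) k} {M : Type} [Field M] [Algebra k M]
  {x : Fin (X.N + 1) → M}

theorem rep_uniqF (c : PChart k σ) {ξ : Option σ → M} {θ₀ : M}
    (h0 : ev (algebraMap k M) ξ θ₀ c.χ = 0) (hD : MvPolynomial.eval₂ (algebraMap k M) ξ c.D ≠ 0)
    {M' τ : Type} [Field M'] [Finite τ] (φ : M →+* M') {ψ : MP (Option σ) k →+* MvPowerSeries τ M}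
    (hC : ∀ u, ψ (MvPolynomial.C u) = MvPowerSeries.C (algebraMap k M u))
    (hX : ∀ i, MvPowerSeries.constantCoeff (ψ (MvPolynomial.X i)) = ξ i)
    {y y' : MvPowerSeries τ M'} (h1 : c.χ.eval₂ ((MvPowerSeries.map φ).comp ψ) y = 0)
    (h2 : MvPowerSeries.constantCoeff y = φ θ₀)
    (h1' : c.χ.eval₂ ((MvPowerSeries.map φ).comp ψ) y' = 0)
    (h2' : MvPowerSeries.constantCoeff y' = φ θ₀) : y = y' := by
  have e : MvPowerSeries.constantCoeff.comp ((MvPowerSeries.map φ).comp ψ) =
      φ.comp (MvPolynomial.eval₂Hom (algebraMap k M) ξ) :=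
    MvPolynomial.ringHom_ext (fun a => by simp [hC]) fun i => by simp [hX]
  refine (c.root_unique ((MvPowerSeries.map φ).comp ψ) (θ₀ := φ θ₀) ?_ ?_).unique ⟨h1, h2⟩ ⟨h1', h2'⟩
  · exact fun u => hD (φ.injective ((RingHom.congr_fun e c.D).symm.trans (u.trans φ.map_zero.symm)))
  · rw [e, ← Polynomial.hom_eval₂, ← ev_def, h0, map_zero]

theorem rep_constF {A E τ : Type} [CommRing A] [Field E] [Finite τ] {φ : A →+* E}
    {J : E →+* Fr (MvPowerSeries τ M)} {J₀ : E → M}
    (h : ∀ b, φ.IsIntegralElem b → ∃ y : MvPowerSeries τ M,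
      J b = algebraMap _ _ y ∧ MvPowerSeries.constantCoeff y = J₀ b)
    {m : ℕ} (hm : (m : M) ≠ 0) {b : E} (hb : b ^ m = 1) : J b = cC τ M (J₀ b) := by
  have : Nontrivial A := φ.domain_nontrivial
  obtain ⟨y, h1, h2⟩ := h b ⟨Polynomial.X ^ m - Polynomial.C 1,
    Polynomial.monic_X_pow_sub_C 1 fun u => hm (by rw [u, Nat.cast_zero]), by simp [hb]⟩
  have h3 : y ^ m = 1 := IsFractionRing.injective _ (Fr (MvPowerSeries τ M)) (by
    rw [map_pow, ← h1, ← map_pow, hb, map_one, map_one])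
  rw [h1, ps_rootF hm h3, h2]
  rfl

theorem rep0F (h : X.Fld c F' θ γ) (hG : c.GI) {n : ℕ} (hD : c.D ∣ Θ ^ n)
    (R : MuC Θ F') (hx : X.On x) (ho : c.Off Θ (algebraMap k M) x) :
    ∃ (M' : Type) (_ : Field M') (_ : Algebra M M') (_ : FiniteDimensional M M') (_ : IsGalois M M')
      (r : (M' ≃ₐ[M] M') → R.E ≃ₐ[F'] R.E) (cb : (M' ≃ₐ[M] M') × (M' ≃ₐ[M] M') → M'ˣ),
      IsMulCocycle₂ cb ∧ ∀ (τ : Type) [Finite τ] (γ' : F' →+* Fr (MvPowerSeries τ M)),
        X.GermT (γ'.comp γ) x → ∃ J : R.E →+* Fr (MvPowerSeries τ M'),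
          (∀ T : Fr (MvPowerSeries τ M) →+* Fr (MvPowerSeries τ M'),
            (∀ y : MvPowerSeries τ M, T (algebraMap _ _ y) = algebraMap (MvPowerSeries τ M') _
              (MvPowerSeries.map (algebraMap M M') y)) → ∀ z, J (algebraMap F' R.E z) = T (γ' z)) ∧
          (∀ (s : M' ≃ₐ[M] M') (T : Fr (MvPowerSeries τ M') →+* Fr (MvPowerSeries τ M')),
            (∀ y : MvPowerSeries τ M', T (algebraMap _ _ y) =
              algebraMap _ _ (MvPowerSeries.map (s : M' →+* M') y)) → ∀ z, J (r s z) = T (J z)) ∧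
          ∀ p, J (R.c (r p.1, r p.2) : R.E) = cC τ M' (cb p : M') := by
  obtain ⟨h0, hD0, -⟩ := ho.coord ((Var.zer_IKL (algebraMap k M) (fun _ => rfl) x).2 hx.2) hD
  have eF : ∀ p, algebraMap F' R.E (toE (MP (Option σ) k) F' p) = toE (MP (Option σ) k) R.E p :=
    fun p => (IsScalarTower.algebraMap_apply (RF (Option σ) k) F' R.E _).symm
  have hθ : c.χ.eval₂ (toE (MP (Option σ) k) R.E) (algebraMap F' R.E θ) = 0 := by
    rw [← show (algebraMap F' R.E).comp _ = _ from RingHom.ext eF, ← Polynomial.hom_eval₂, h.ff.1,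
      map_zero]
  obtain ⟨M', _, _, _, _, J₀, r, hJ0, H⟩ := zneF R.unr (a := c.xi (algebraMap k M) x) ho.2
    c.monic (PChart.GI.irr hG) hθ h0
  have hm : (R.m : M') ≠ 0 := by
    rw [← map_natCast ((algebraMap M M').comp (algebraMap k M))]
    exact (map_ne_zero _).2 R.hm
  have hC : ∀ u, tay (algebraMap k M) (c.xi (algebraMap k M) x) (MvPolynomial.C u) =
      MvPowerSeries.C (algebraMap k M u) := fun u => MvPolynomial.eval₂Hom_C _ _ u
  have hX : ∀ i, MvPowerSeries.constantCoeff (tay (algebraMap k M) (c.xi (algebraMap k M) x)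
      (MvPolynomial.X i)) = c.xi (algebraMap k M) x i := fun i => by
    rw [tay_cc, MvPolynomial.eval₂_X]
  obtain ⟨J, h1, h2, h3⟩ := H _ _ hC (tay_inj _ _) hX
  choose T hT using fun s : M' ≃ₐ[M] M' => ps_lift (τ := Option σ) (s : M' →+* M')
  obtain ⟨y, hy1, hy2, hy3⟩ := rep_root c.monic
    (ψ := (MvPowerSeries.map (algebraMap M M')).comp _) h1 h2 hθ
  have hfix : ∀ s, r s (algebraMap F' R.E θ) = algebraMap F' R.E θ := fun s => by
    apply J.injective
    rw [h3 s _ (hT s), hy1, hT]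
    have e : (s : M' →+* M').comp (algebraMap M M') = algebraMap M M' := RingHom.ext s.commutes
    refine congrArg _ (rep_uniqF c.toPChart h0 hD0 (algebraMap M M') hC hX ?_ ?_ hy3 (hy2.trans hJ0))
    · have := congrArg (MvPowerSeries.map (s : M' →+* M')) hy3
      rwa [Polynomial.hom_eval₂, map_zero, ← RingHom.comp_assoc, ← MvPowerSeries.map_comp, e] at this
    · rw [MvPowerSeries.constantCoeff_map, hy2, hJ0]
      exact s.commutes _
  choose r' hr' using fun s => PChart.FF.over h.ff (r s) (hfix s)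
  have hp : ∀ p, (R.c p : R.E) ^ R.m = 1 := fun p => by
    rw [← Units.val_pow_eq_pow_val, R.pow, Units.val_one]
  have hne : ∀ p, J₀ (R.c p) ≠ 0 := fun p u => (R.c p).ne_zero (J.injective (by
    rw [rep_constF h2 hm (hp p), u, map_zero, map_zero]))
  have hmul : ∀ s t, r' (s * t) = r' s * r' t := fun s t => AlgEquiv.ext fun z => J.injective (by
    rw [AlgEquiv.mul_apply, hr', hr', hr', h3 s _ (hT s), h3 t _ (hT t)]
    refine h3 (s * t) ((T s).comp (T t)) (fun y => ?_) z
    rw [RingHom.comp_apply, hT, hT]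
    rfl)
  refine ⟨M', _, _, ‹_›, ‹_›, r', fun p => Units.mk0 _ (hne (r' p.1, r' p.2)), fun s t u => ?_,
    fun τ _ γ' hg => ?_⟩
  · refine Units.ext ((cC (Option σ) M').injective ?_)
    have e : ∀ z, cC (Option σ) M' (s z) = T s (cC (Option σ) M' z) := fun z => by
      rw [RingHom.comp_apply, RingHom.comp_apply, hT, MvPowerSeries.map_C]
      rfl
    change cC _ _ (J₀ _ * J₀ _) = cC _ _ (s (J₀ _) * J₀ _)
    simp only [map_mul, e, ← rep_constF h2 hm (hp _), ← h3 s _ (hT s), ← hr', hmul]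
    rw [← map_mul, ← map_mul]
    exact congrArg (fun z : R.Eˣ => J z) (R.coc (r' s) (r' t) (r' u))
  · obtain ⟨ψ, η, g1, g2, g3, g4, g5, g6, g7⟩ := h.germ_chart hg ho.1
    obtain ⟨J', k1, k2, k3⟩ := H τ ψ g1 g2 g3
    refine ⟨J', fun T hT => ?_, fun s T hT z => by rw [hr', k3 s T hT], fun p => ?_⟩
    · refine RingHom.congr_fun (PChart.FF.ext h.ff (γ := J'.comp (algebraMap F' R.E))
        (γ' := T.comp γ') (fun p => ?_) ?_)
      · rw [RingHom.comp_apply, RingHom.comp_apply T, eF, k1, g4, hT]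
      · obtain ⟨y', hy1', hy2', hy3'⟩ := rep_root c.monic
          (ψ := (MvPowerSeries.map (algebraMap M M')).comp ψ) k1 k2 hθ
        rw [RingHom.comp_apply, RingHom.comp_apply T, hy1', g5, hT]
        refine congrArg _ (rep_uniqF c.toPChart h0 hD0 (algebraMap M M') g1 g3 hy3' (hy2'.trans hJ0)
          ?_ ?_)
        · rw [← Polynomial.hom_eval₂, g7, map_zero]
        · rw [MvPowerSeries.constantCoeff_map, g6]
    · exact rep_constF k2 hm (hp _)

end Pool.Agent.ZFy
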