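import Pool.Agent.Lib.MP_751085_ag.ZC.L.GenPt
import Pool.Agent.Lib.MP_751085_ag.ZF.A6
import Pool.Agent.Lib.MP_751085_ag.ZF.L.Lift
import Pool.Agent.Lib.MP_751085_ag.ZF.L.Zne

/-! Values of a cocycle in roots of unity along germs. -/

namespace Pool.Agent.ZCy.F

open Pool.Agent.ZFy
open scoped Classical WithZero Polynomial
open groupCohomology

set_option linter.unusedSectionVars false

theorem lf_comp {A B E : Type} [Field A] [Field B] [Field E] (f : A →+* B) (g : B →+* E)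
    (a : BR A) : rs g (rs f a) = rs (g.comp f) a := res_res f g a

theorem lf_cls {F' M M' τ E : Type} [Field F'] [Field M] [Field M'] [Algebra M M']
    [FiniteDimensional M M'] [IsGalois M M'] [Field E] [Algebra F' E] [FiniteDimensional F' E]
    [IsGalois F' E] {cc : (E ≃ₐ[F'] E) × (E ≃ₐ[F'] E) → Eˣ} (hc : IsMulCocycle₂ cc)
    {r : (M' ≃ₐ[M] M') → E ≃ₐ[F'] E} {cb : (M' ≃ₐ[M] M') × (M' ≃ₐ[M] M') → M'ˣ}
    (hb : IsMulCocycle₂ cb) {γ' : F' →+* Fr (MvPowerSeries τ M)} {J : E →+* Fr (MvPowerSeries τ M')}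
    (h1 : ∀ T : Fr (MvPowerSeries τ M) →+* Fr (MvPowerSeries τ M'),
      (∀ y : MvPowerSeries τ M, T (algebraMap _ _ y) = algebraMap (MvPowerSeries τ M') _
        (MvPowerSeries.map (algebraMap M M') y)) → ∀ z, J (algebraMap F' E z) = T (γ' z))
    (h2 : ∀ (s : M' ≃ₐ[M] M') (T : Fr (MvPowerSeries τ M') →+* Fr (MvPowerSeries τ M')),
      (∀ y : MvPowerSeries τ M', T (algebraMap _ _ y) =
        algebraMap _ _ (MvPowerSeries.map (s : M' →+* M') y)) → ∀ z, J (r s z) = T (J z))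
    (h3 : ∀ p, J (cc (r p.1, r p.2) : E) = cC τ M' (cb p : M')) :
    rs γ' (cls F' cc) = rs (cC τ M) (cls M cb) := by
  obtain ⟨_, _, _, e1, e2⟩ := ps_gal M M' τ
  have a1 := rs_cls γ' (j := J) (h1 _ e1) (r := r) (fun s z =>
    h2 s (MulSemiringAction.toRingHom _ _ s) (e2 s) z) hc
  have a2 := rs_cls (cC τ M) (j := cC τ M') (r := id) (G := M' ≃ₐ[M] M') (fun u => by
    rw [RingHom.comp_apply, RingHom.comp_apply, e1, MvPowerSeries.map_C]) (fun s z => by
    rw [RingHom.comp_apply, RingHom.comp_apply, e2, MvPowerSeries.map_C]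
    rfl) hb
  rw [a1, a2]
  exact congrArg _ (funext fun p => Units.ext (h3 p))

variable {k : Type} [Field k] {X : Var k} {σ : Type} [Fintype σ]

/-- the class is constant along all germs at a good point -/
theorem lf_rep {c : Chart k σ X.N (X.IK k)} {F' : Type} [Field F'] [Algebra (RF (Option σ) k) F']
    [Algebra k F'] {θ : F'} {γ : X.F →+* F'} {Θ : MP (Option σ) k} {M : Type} [Field M]
    [Algebra k M] {x : Fin (X.N + 1) → M} (h : X.Fld c F' θ γ) (hG : c.GI) {n : ℕ}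
    (hD : c.D ∣ Θ ^ n) (R : MuC Θ F') (hx : X.On x) (ho : c.Off Θ (algebraMap k M) x) :
    ∃ β : BR M, ∀ (τ : Type) [Finite τ] (γ' : F' →+* Fr (MvPowerSeries τ M)),
      X.GermT (γ'.comp γ) x → rs γ' (cls F' R.c) = rs (cC τ M) β := by
  obtain ⟨M', _, _, _, _, r, cb, hb, H⟩ := rep0F h hG hD R hx ho
  have : FiniteDimensional F' R.E := Module.Finite.of_restrictScalars_finite (RF (Option σ) k) _ _
  have : IsGalois F' R.E := IsGalois.tower_top_of_isGalois (RF (Option σ) k) _ _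
  refine ⟨cls M cb, fun τ _ γ' hg => ?_⟩
  obtain ⟨J, h1, h2, h3⟩ := H τ γ' hg
  exact lf_cls R.coc hb h1 h2 h3

/-- the lifted class at the generic point of the section -/
theorem lf_gen {c : Chart k (Option σ) X.N (X.IK k)} {F' : Type} [Field F']
    [Algebra (RF (Option (Option σ)) k) F'] [Algebra k F'] {θ : F'} {γ : X.F →+* F'}
    (h : X.Fld c F' θ γ) (hG : c.GI) {c' : PChart k σ} (hh : c.toPChart.IsHyp c') {FY : Type}
    [Field FY] [Algebra (RF (Option σ) k) FY] [Algebra k FY] {θY : FY} (hF : c'.FF FY θY)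
    (ha : ∀ a : k, algebraMap k FY a = toE (MP (Option σ) k) FY (MvPolynomial.C a))
    {Θ : MP (Option (Option σ)) k} (h0 : hyp Θ ≠ 0) {r : ℕ}
    (hD : c.D ∣ Θ ^ r) {R' : MuC (hyp Θ) FY} {R : MuC Θ F'}
    (T : LiftF θ θY R' R) : ∃ γ₁ : F' →+* Fr (MvPowerSeries Unit FY),
      X.GermT (γ₁.comp γ) (c.pv (algebraMap k FY)
        (ext0 fun i => toE (MP (Option σ) k) FY (MvPolynomial.X i)) θY) ∧
      rs γ₁ (cls F' R.c) = rs (cC Unit FY) (cls FY R'.c) := by
  obtain ⟨ψ, hC, hi, hc⟩ := gp_psi (σ := σ) ha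
  have hcc : MvPowerSeries.constantCoeff.comp ψ = (toE (MP (Option σ) k) FY).comp hyp :=
    RingHom.ext hc
  have hev : ∀ p, MvPolynomial.eval₂ (algebraMap k FY)
      (ext0 fun i => toE (MP (Option σ) k) FY (MvPolynomial.X i)) p =
        toE (MP (Option σ) k) FY (hyp p) := fun p => by
    rw [← eval₂_hyp]
    have : MvPolynomial.eval₂Hom (algebraMap k FY)
        (fun i => toE (MP (Option σ) k) FY (MvPolynomial.X i)) = toE (MP (Option σ) k) FY :=
      MvPolynomial.ringHom_ext (fun a => by rw [MvPolynomial.eval₂Hom_C, ha])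
        fun i => MvPolynomial.eval₂Hom_X' _ _ i
    exact DFunLike.congr_fun this _
  have hD0 : toE (MP (Option σ) k) FY (hyp c.D) ≠ 0 := by
    rw [← hh.D]
    exact (map_ne_zero_iff _ (toE_inj FY)).2 c'.D_ne
  have hχ : c.χ.eval₂ ((toE (MP (Option σ) k) FY).comp hyp) θY = 0 := by
    rw [← Polynomial.eval₂_map, ← hh.χ]
    exact hF.1
  obtain ⟨γ', η, g1, g2, g3, hg⟩ := h.chart_germ hG ψ hC hi (by rwa [hc]) (θ₀ := θY) (by rwa [hcc])
  have hx : (fun i => MvPowerSeries.constantCoeff (ψ (MvPolynomial.X i))) =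
      ext0 fun i => toE (MP (Option σ) k) FY (MvPolynomial.X i) := funext fun i => by
    rw [hc, ← hev, MvPolynomial.eval₂_X]
  rw [hx] at hg
  refine ⟨γ', hg, ?_⟩
  have hΘ : toE (MP (Option σ) k) FY (hyp Θ) ≠ 0 := (map_ne_zero_iff _ (toE_inj FY)).2 h0
  have ho : c.Off Θ (algebraMap k FY) (c.pv (algebraMap k FY)
      (ext0 fun i => toE (MP (Option σ) k) FY (MvPolynomial.X i)) θY) := by
    refine gp_off c _ ?_ (by rwa [hev]) (by rwa [hev])
    rw [ev_def, ← hχ]
    congr 1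
    exact RingHom.ext hev
  obtain ⟨M', _, _, _, _, s, cb, hcb, hJ⟩ := rep0F h hG hD R hg.on ho
  obtain ⟨J, h1, h2, h3⟩ := hJ Unit γ' hg
  have : FiniteDimensional F' R.E := FiniteDimensional.right (RF (Option (Option σ)) k) F' R.E
  have : IsGalois F' R.E := IsGalois.tower_top_of_isGalois (RF (Option (Option σ)) k) F' R.E
  have : FiniteDimensional FY R'.E := FiniteDimensional.right (RF (Option σ) k) FY R'.E
  have : IsGalois FY R'.E := IsGalois.tower_top_of_isGalois (RF (Option σ) k) FY R'.E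
  rw [lf_cls R.coc hcb h1 h2 h3]
  congr 1
  obtain ⟨V, ρ, hV⟩ := exists_valRed (T := PowerSeries M') PowerSeries.X_prime
    (PowerSeries.constantCoeff : PowerSeries M' →+* M') fun a => PowerSeries.X_dvd_iff.symm
  obtain ⟨Tl, hTl⟩ := ps_lift (τ := Unit) (algebraMap FY M')
  have hJp : ∀ p, J (toE (MP (Option (Option σ)) k) R.E p) = algebraMap (MvPowerSeries Unit M') _
      (MvPowerSeries.map (algebraMap FY M') (ψ p)) := fun p => by
    rw [← hTl, ← g1, ← h1 Tl hTl]
    exact congrArg J (IsScalarTower.algebraMap_apply _ F' _ _)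
  have hw : Cen (toE (MP (Option (Option σ)) k) R.E) (V.comap J) (MvPolynomial.X (some none)) := by
    refine ⟨fun p => ?_, fun p => ?_⟩ <;> rw [Valuation.comap_apply, hJp]
    · exact hV.cen.1 _
    · refine (hV.cen.2 _).trans (PowerSeries.X_dvd_iff.trans ?_)
      change MvPowerSeries.constantCoeff _ = 0 ↔ _
      rw [MvPowerSeries.constantCoeff_map, hc, map_eq_zero_iff _ (algebraMap FY M').injective,
        map_eq_zero_iff _ (toE_inj FY), lz_hyp_zero]
  have he := gp_equiv MvPolynomial.X_prime T.inert T.cen hw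
  obtain ⟨ρ', r1, r2⟩ := hV.red.comap J he
  obtain ⟨j', hj'⟩ := T.red.transfer r1 T.rng
  have key : ∀ (y : T.w.integer) (a : MvPowerSeries Unit M'), J y = algebraMap _ _ a →
      ρ' y = MvPowerSeries.constantCoeff a := fun y a e =>
    (r2 y ⟨_, hV.cen.1 a⟩ e.symm).trans (hV.ext a _ rfl)
  have hb : j'.comp (algebraMap FY R'.E) = algebraMap FY M' := by
    refine hF.ext (fun p => ?_) ?_
    · obtain ⟨q, rfl⟩ := lz_hyp_surj p
      have e1 := hj' _ _ (T.base q ⟨_, T.cen.1 q⟩ rfl)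
      rw [key _ _ (hJp q), MvPowerSeries.constantCoeff_map, hc] at e1
      rw [e1]
      exact congrArg j' (IsScalarTower.algebraMap_apply _ FY _ _).symm
    · obtain ⟨y, e1, e2⟩ := T.th
      have e3 := hj' _ _ e2
      rw [key y (MvPowerSeries.map (algebraMap FY M') η) (by rw [e1, h1 Tl hTl, g2, hTl]),
        MvPowerSeries.constantCoeff_map, g3] at e3
      exact e3.symm
  have hr : ∀ (g : M' ≃ₐ[FY] M') (z : R'.E), j' (T.π (s g) • z) = g • j' z := fun g z => by
    obtain ⟨y, hy⟩ := T.rng ⟨z, rfl⟩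
    obtain ⟨y', e1, e2⟩ := T.eqv (s g) y z hy
    obtain ⟨S, hS⟩ := ps_lift (τ := Unit) (g : M' →+* M')
    have e3 := (hV.aut S (MvPowerSeries.map (g : M' →+* M')) (g : M' →+* M') hS
      (Associated.of_eq (MvPowerSeries.map_X _ _))
      fun a => MvPowerSeries.constantCoeff_map _ a).2 ⟨J y, (he y).1 y.2⟩ ⟨J y', (he y').1 y'.2⟩
      ((congrArg J e1).trans (h2 g S hS y))
    rw [← r2 y' _ rfl, ← r2 y _ rfl, hj' _ _ hy, hj' _ _ e2] at e3
    exact e3
  have hp : pull j' (fun g => T.π (s g)) R'.c = cb := funext fun p => Units.ext (by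
    obtain ⟨y, e1, e2⟩ := T.coc (s p.1, s p.2)
    have e3 := hj' _ _ e2
    rw [key y (MvPowerSeries.C (cb p : M')) (by rw [e1]; exact h3 p),
      MvPowerSeries.constantCoeff_C] at e3
    exact e3.symm)
  rw [← hp, ← rs_cls (RingHom.id FY) (j := j') (fun a => DFunLike.congr_fun hb a) hr R'.coc]
  exact res_id _

end Pool.Agent.ZCy.F
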