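import Pool.Agent.Lib.MP_751085_ag.ZC.L.Cen
import Pool.Agent.Lib.MP_751085_ag.ZC.L.Inf
import Pool.Agent.Lib.MP_751085_ag.ZC.V.Pur
import Pool.Agent.Lib.MP_751085_ag.ZC.V.Sep

/-! Valuations with a centre off the branch locus, and the points at infinity of a chart. -/

namespace Pool.Agent.ZFy

open Pool.Agent.ZCy
open scoped Classical WithZero Polynomial

set_option linter.unusedSectionVars false

/-- purity of the branch locus for a valuation with any centre -/
theorem ine_off {k ι K E : Type} [Field k] [Finite ι] [Field K] [Field E] [Algebra K E]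
    [FiniteDimensional K E] [IsGalois K E] {α : MP ι k →+* K} (hα : IsFr α) {Θ : MP ι k}
    (hu : UnrOff K (tE E α) Θ) {W : Vl E} (h1 : ∀ p, W (tE E α p) ≤ 1) (hΘ : W (tE E α Θ) = 1) :
    Ine K W = ⊥ := by
  obtain ⟨Ω, _, ρ, hρ⟩ := exists_redL W
  let φ : MP ι k →+* W.integer := (tE E α).codRestrict W.integer h1
  have e0 : ∀ p, (ρ.comp φ) p = MvPolynomial.eval₂ ((ρ.comp φ).comp MvPolynomial.C)
      (fun i => (ρ.comp φ) (MvPolynomial.X i)) p := fun p =>
    (DFunLike.congr_fun (fld_hom (ρ.comp φ)) p).symm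
  have n0 : (ρ.comp φ) Θ ≠ 0 := fun e => ((hρ _).1 e).ne hΘ
  obtain ⟨M', _, _, _, _, β, hβ⟩ := znp_hom hα hu ((ρ.comp φ).comp MvPolynomial.C)
    (fun i => (ρ.comp φ) (MvPolynomial.X i)) (e0 Θ ▸ n0)
  let s : IntOff (tE E α) Θ →+* W.integer := (IntOff (tE E α) Θ).subtype.codRestrict W.integer
    fun x => le_one_of_intOff (j := RingHom.id E) hα h1 hΘ x.2
  have e1 : ∀ p, ((algebraMap Ω M').comp (ρ.comp s)) (toInt _ Θ p) =
      (MvPowerSeries.constantCoeff.comp β) (toInt _ Θ p) := fun p => by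
    rw [RingHom.comp_apply _ β, hβ, MvPowerSeries.constantCoeff_map, constantCoeff_pt, ← e0]
    rfl
  obtain ⟨g, hg0, hg⟩ := (stab_intOff α Θ).place_conj (MvPowerSeries.constantCoeff.comp β)
    ((algebraMap Ω M').comp (ρ.comp s)) fun a ha => by
      obtain ⟨m, hm⟩ := exists_pow_mul_mem hα a.2
      obtain ⟨p, hp⟩ := fix_intOff_one hα hm fun g => by
        rw [map_mul, map_pow, ha g (Subgroup.mem_top g)]
        exact congrArg (fun z => z ^ m * (a : E)) (g.commutes _)
      have e2 : toInt (tE E α) Θ p = toInt _ Θ Θ ^ m * a := Subtype.ext hp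
      have e3 := e1 p
      rw [e2, map_mul, map_mul, map_pow, map_pow, ← e1] at e3
      exact mul_left_cancel₀ (pow_ne_zero m ((map_ne_zero (algebraMap Ω M')).2 n0)) e3
  have e4 : β.comp (toInt _ Θ) = pt ((algebraMap Ω M').comp ((ρ.comp φ).comp MvPolynomial.C))
      fun i => algebraMap Ω M' ((ρ.comp φ) (MvPolynomial.X i)) :=
    RingHom.ext fun p => (hβ p).trans (map_pt _ _)
  have : IsDomain (MvPowerSeries ι M') := NoZeroDivisors.to_isDomain _
  refine (Subgroup.eq_bot_iff_forall _).2 fun n hn => mul_left_cancel (a := g) ?_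
  refine flat_sep hα hu β (by rw [e4]; exact flat_pt (flat_field _))
    (by rw [e4]; exact pt_inj (RingHom.injective _)) MvPowerSeries.constantCoeff fun x => ?_
  have e5 : ρ (s (gI α Θ n x)) = ρ (s x) := by
    rw [← sub_eq_zero, ← map_sub, hρ]
    exact hn.2 _ (s x).2
  exact ((hg (gI α Θ n x)).symm.trans (congrArg (algebraMap Ω M') e5)).trans (hg x)

variable {k : Type} [Field k] {X : Var k} {σ σ₂ : Type} [Fintype σ] [Fintype σ₂]
  {c : Chart k σ X.N (X.IK k)} {c₂ : Chart k σ₂ X.N (X.IK k)} {F' F₂ : Type} [Field F']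
  [Algebra (RF (Option σ) k) F'] [Algebra k F'] [Field F₂] [Algebra (RF (Option σ₂) k) F₂]
  [Algebra k F₂] {θ : F'} {θ₂ : F₂} {γ : X.F →+* F'} {γ₂ : X.F →+* F₂}

/-- a place at infinity of the generic fibre of `c₂` is centred at a point at infinity -/
theorem base_off (h : X.Fld c F' θ γ) (h₂ : X.Fld c₂ F₂ θ₂ γ₂) {ι : F' →+* F₂}
    (hι : ι.comp γ = γ₂) {Θ : MP (Option σ) k}
    (hO : ∀ (Ω : Type) [Field Ω] [Algebra k Ω] (x : Fin (X.N + 1) → Ω), X.On x →
      (∀ i, MvPolynomial.aeval x (c₂.f (skip i)) = 0) → c.Off Θ (algebraMap k Ω) x) {v : Vl F₂}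
    (h1 : ∀ p : MP σ₂ k, p ≠ 0 → v (toE (MP (Option σ₂) k) F₂ (up p)) = 1)
    (h2 : 1 < v (toE (MP (Option σ₂) k) F₂ (MvPolynomial.X none))) :
    (∀ p, v (ι (toE (MP (Option σ) k) F' p)) ≤ 1) ∧ v (ι (toE (MP (Option σ) k) F' Θ)) = 1 := by
  let ψ : k →+* F₂ := (toE (MP (Option σ₂) k) F₂).comp MvPolynomial.C
  have hψ : ∀ a, v (ψ a) ≤ 1 := fun a => by
    by_cases ha : a = 0
    · simp [ha]
    · have := h1 _ (MvPolynomial.C_ne_zero.2 ha)
      rw [up, MvPolynomial.rename_C] at this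
      exact this.le
  let φ : k →+* v.integer := ψ.codRestrict v.integer hψ
  have eψ : (algebraMap v.integer F₂).comp φ = ψ := RingHom.ext fun _ => rfl
  obtain ⟨c1, c2, -⟩ := h₂.coord
  have hz : Zer (X.IK k) ψ fun i => γ₂ (X.g i) := h₂.zer
  have t0 : toE (MP (Option σ₂) k) F₂ (MvPolynomial.X none) ≠ 0 := fun e => by simp [e] at h2
  have c3 : ∀ i, MvPolynomial.eval₂ ψ (fun i => γ₂ (X.g i)) (c₂.f (some i)) =
      toE (MP (Option σ₂) k) F₂ (MvPolynomial.X i) *
        MvPolynomial.eval₂ ψ (fun i => γ₂ (X.g i)) (c₂.f none) := fun i =>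
    (div_eq_iff c1).1 (c2 i)
  have hs : ∀ i, ∃ s : v.integer, v (s : F₂) < 1 ∧
      MvPolynomial.eval₂ ψ (fun i => γ₂ (X.g i)) (c₂.f (skip i)) =
        s * MvPolynomial.eval₂ ψ (fun i => γ₂ (X.g i)) (c₂.f (some none)) := by
    have l1 : v (toE (MP (Option σ₂) k) F₂ (MvPolynomial.X none))⁻¹ < 1 := by
      rw [map_inv₀]
      exact inv_lt_one_of_one_lt₀ h2
    rintro (_ | i)
    · exact ⟨⟨_, l1.le⟩, l1, by rw [c3, inv_mul_cancel_left₀ t0]; rfl⟩
    · have l2 : v (toE (MP (Option σ₂) k) F₂ (MvPolynomial.X (some i)) *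
          (toE (MP (Option σ₂) k) F₂ (MvPolynomial.X none))⁻¹) < 1 := by
        have := h1 _ (MvPolynomial.X_ne_zero i)
        rw [up, MvPolynomial.rename_X] at this
        rwa [map_mul, this, one_mul]
      exact ⟨⟨_, l2.le⟩, l2, by rw [c3 none, mul_assoc, inv_mul_cancel_left₀ t0, ← c3]; rfl⟩
  choose s hs hs' using hs
  obtain ⟨u, y, j, hu, hy, hj, -⟩ := c₂.normalise φ (x := fun i => γ₂ (X.g i)) (eψ ▸ hz)
    (i₀ := some none) (by rw [eψ, c3]; exact mul_ne_zero t0 c1) (by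
      rw [eψ]
      rintro (_ | _ | i)
      · exact ⟨s none, hs' none⟩
      · exact ⟨1, by simp⟩
      · exact ⟨s (some i), hs' (some i)⟩)
  have hF : ∀ {G : Fm X.N k} {m : ℕ}, G.IsHomogeneous m →
      ((MvPolynomial.eval₂ φ y G : v.integer) : F₂) =
        u ^ m * MvPolynomial.eval₂ ψ (fun i => γ₂ (X.g i)) G := fun {G m} hG => by
    rw [← cen_smul hG, ← eψ]
    refine (MvPolynomial.eval₂_comp_left (algebraMap v.integer F₂) φ y G).trans ?_
    congr 1
    exact funext hy
  obtain ⟨Ω, _, ρ, hρ⟩ := exists_redL v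
  let _ : Algebra k Ω := (ρ.comp φ).toAlgebra
  have hφ : ρ.comp φ = algebraMap k Ω := rfl
  have hzy : Zer (X.IK k) (algebraMap k Ω) fun i => ρ (y i) := by
    refine Zer.comp (φ := φ) (fun G hG => Subtype.ext ?_) ρ
    obtain ⟨G₀, ⟨⟨m, hm⟩, -⟩, rfl⟩ := id hG
    rw [hF (hm.map _), hz _ hG, mul_zero]
    rfl
  obtain ⟨o1, o2⟩ := hO Ω (fun i => ρ (y i)) ⟨fun e => by simpa [hj] using congrFun e j,
    (Var.zer_IKL (algebraMap k Ω) (fun _ => rfl) _).1 hzy⟩ fun i => by
      have e : MvPolynomial.eval₂ φ y (c₂.f (skip i)) =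
          s i * MvPolynomial.eval₂ φ y (c₂.f (some none)) := Subtype.ext (by
        rw [Subring.coe_mul, hF (c₂.hf _), hF (c₂.hf _), hs', mul_left_comm])
      rw [← cen_res hφ, e, map_mul, (hρ _).2 (hs i), zero_mul]
  have eC : ∀ a, ι (toE (MP (Option σ) k) F' (MvPolynomial.C a)) = ψ a := fun a => by
    have e1 : toE (MP (Option σ) k) F' (MvPolynomial.C a) = γ (algebraMap k X.F a) :=
      (h.alg a).symm.trans (h.dom.1 a).symm
    rw [e1, ← RingHom.comp_apply, hι, h₂.dom.1 a, h₂.alg a]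
    rfl
  have eF : ∀ G : Fm X.N k, ι (MvPolynomial.eval₂ ((toE (MP (Option σ) k) F').comp MvPolynomial.C)
      (fun i => γ (X.g i)) G) = MvPolynomial.eval₂ ψ (fun i => γ₂ (X.g i)) G := fun G => by
    rw [MvPolynomial.eval₂_comp_left, ← hι]
    congr 1
    exact RingHom.ext eC
  obtain ⟨-, d2, -⟩ := h.coord
  have hY : ∀ i, ρ (MvPolynomial.eval₂ φ y (c.f i)) =
      MvPolynomial.eval₂ (algebraMap k Ω) (fun i => ρ (y i)) (c.f i) := fun i => cen_res hφ _ _
  choose t ht ht' using fun i => cen_div hρ (MvPolynomial.eval₂ φ y (c.f (some i)))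
    (b := MvPolynomial.eval₂ φ y (c.f none)) (hY none ▸ o1)
  have hv := cen_val hρ hφ (Φ := ι.comp (toE (MP (Option σ) k) F')) eC (t := t) fun i => by
    rw [RingHom.comp_apply, ← d2 i, Chart.xi, map_div₀, eF, eF, ht, hF (c.hf _), hF (c.hf _),
      mul_div_mul_left _ _ (pow_ne_zero _ hu)]
  refine ⟨fun p => (hv p).1, le_antisymm (hv Θ).1 (not_lt.1 fun e => o2 ?_)⟩
  have e2 := (hv Θ).2.1 e
  simp only [ht', hY] at e2
  exact e2

/-- the germ at a point at infinity -/
theorem inf_germF {K : Type} [Field K] [Algebra k K] {c : Chart K σ X.N (X.IK K)} {F' : Type}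
    [Field F'] [Algebra (RF (Option σ) K) F'] [Algebra k F'] {θ : F'} {γ : X.F →+* F'}
    (h : X.Fld c F' θ γ) (hG : c.GI) {M : Type} [Field M] [Algebra K M]
    [Algebra k M] [IsScalarTower k K M] {z : M} (hz : Polynomial.aeval z c.top = 0) :
    ∃ (γ' : F' →+* Fr (MvPowerSeries (Option σ) M)) (x : Fin (X.N + 1) → M)
      (lam : Fr (MvPowerSeries (Option σ) M) →+* LaurentSeries (RF σ M)),
      X.GermT (γ'.comp γ) x ∧ (∀ i, MvPolynomial.eval₂ (algebraMap K M) x (c.f (skip i)) = 0) ∧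
      PChart.InfEmb (K := K) θ z (lam.comp γ') ∧
      lam.comp (cC (Option σ) M) = (PChart.cst σ M).comp MvPolynomial.C := by
  obtain ⟨γ', η, h1, hC, hN, hS, hθ, h0⟩ := inf_emb hG h.ff hz
  let φ1 : K →+* MvPowerSeries (Option σ) M := MvPowerSeries.C.comp (algebraMap K M)
  have eK : γ'.comp ((toE (MP (Option σ) K) F').comp MvPolynomial.C) =
      (algebraMap (MvPowerSeries (Option σ) M) _).comp φ1 := RingHom.ext hC
  have hz' := h.zer.comp γ'
  rw [eK] at hz'
  obtain ⟨c0, cX, -⟩ := h.coord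
  have ef : ∀ G, MvPolynomial.eval₂ ((algebraMap (MvPowerSeries (Option σ) M)
      (Fr (MvPowerSeries (Option σ) M))).comp φ1) (fun i => γ' (γ (X.g i))) G =
      γ' (MvPolynomial.eval₂ ((toE (MP (Option σ) K) F').comp MvPolynomial.C)
        (fun i => γ (X.g i)) G) := fun G => by
    rw [MvPolynomial.eval₂_comp_left, eK]; rfl
  have c1 : ∀ i, γ' (MvPolynomial.eval₂ ((toE (MP (Option σ) K) F').comp MvPolynomial.C)
      (fun i => γ (X.g i)) (c.f (some i))) = γ' (toE (MP (Option σ) K) F' (MvPolynomial.X i)) *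
      γ' (MvPolynomial.eval₂ ((toE (MP (Option σ) K) F').comp MvPolynomial.C)
        (fun i => γ (X.g i)) (c.f none)) := fun i => by
    rw [← map_mul, ← cX i, Chart.xi, div_mul_cancel₀ _ c0]
  have c0' := (map_ne_zero γ').2 c0
  have hs : ∀ i, MvPolynomial.eval₂ ((algebraMap (MvPowerSeries (Option σ) M)
      (Fr (MvPowerSeries (Option σ) M))).comp φ1) (fun i => γ' (γ (X.g i))) (c.f (skip i)) =
      algebraMap (MvPowerSeries (Option σ) M) _ (MvPowerSeries.X i) *
      MvPolynomial.eval₂ ((algebraMap (MvPowerSeries (Option σ) M)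
        (Fr (MvPowerSeries (Option σ) M))).comp φ1) (fun i => γ' (γ (X.g i)))
          (c.f (some none)) := fun i => by
    rw [ef, ef, c1 none, hN]
    cases i with
    | none => rw [← mul_assoc, mul_inv_cancel₀ h0, one_mul]; rfl
    | some j =>
      rw [← mul_assoc, ← div_eq_mul_inv, ← hS, ← c1]; rfl
  have := lv_normal M (Option σ)
  have : IsDomain (MvPowerSeries (Option σ) M) := NoZeroDivisors.to_isDomain _
  obtain ⟨u, y, j, hu, hy, hj, -⟩ := c.normalise φ1 hz' (i₀ := some none) (by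
    rw [ef, c1, hN]; exact mul_ne_zero (inv_ne_zero h0) c0') (fun i => by
    rcases i with _ | _ | i
    · exact ⟨_, hs none⟩
    · exact ⟨1, by rw [map_one, one_mul]⟩
    · exact ⟨_, hs (some i)⟩)
  have ey : ∀ i, algebraMap (MvPowerSeries (Option σ) M) (Fr (MvPowerSeries (Option σ) M))
      (MvPolynomial.eval₂ φ1 y (c.f i)) = u ^ c.d * MvPolynomial.eval₂
        ((algebraMap (MvPowerSeries (Option σ) M) (Fr (MvPowerSeries (Option σ) M))).comp φ1)
        (fun i => γ' (γ (X.g i))) (c.f i) := fun i => by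
    rw [MvPolynomial.eval₂_comp_left, ← inf_hom (c.hf i)]
    congr 1
    exact funext hy
  obtain ⟨S, hSi, hSC, hSN, hSS, hS0⟩ := exists_he M σ
  have hi : Function.Injective ((HahnSeries.ofPowerSeries ℤ (RF σ M)).comp S) :=
    HahnSeries.ofPowerSeries_injective.comp hSi
  let lam : Fr (MvPowerSeries (Option σ) M) →+* LaurentSeries (RF σ M) := IsFractionRing.lift hi
  have hl : ∀ p, lam (algebraMap (MvPowerSeries (Option σ) M) _ p) =
      HahnSeries.ofPowerSeries ℤ (RF σ M) (S p) := fun p => IsFractionRing.lift_algebraMap hi p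
  have lN : lam (algebraMap (MvPowerSeries (Option σ) M) _ (MvPowerSeries.X none)) =
      HahnSeries.single 1 1 := by rw [hl, hSN, PowerSeries.coe_X]
  have lN0 : (HahnSeries.single 1 1 : LaurentSeries (RF σ M)) ≠ 0 := by
    rw [← lN]; exact (map_ne_zero lam).2 h0
  have lC : ∀ a : M, lam (algebraMap (MvPowerSeries (Option σ) M) _ (MvPowerSeries.C a)) =
      PChart.cst σ M (MvPolynomial.C a) := fun a => by
    rw [hl, hSC, PowerSeries.coe_C]; rfl
  refine ⟨γ', fun i => MvPowerSeries.constantCoeff (y i), lam, ⟨fun a => ?_, fun e => ?_,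
    u, y, fun i => ⟨hy i, rfl⟩⟩, fun i => ?_, ⟨fun p => ?_, ?_, S η, ?_, ?_⟩, RingHom.ext lC⟩
  · rw [RingHom.comp_apply, h.dom.1, h.alg, hC, ← IsScalarTower.algebraMap_apply]
  · have := congrFun e j
    rw [hj, map_one] at this
    exact one_ne_zero this
  · have e1 : MvPolynomial.eval₂ φ1 y (c.f (skip i)) =
        MvPowerSeries.X i * MvPolynomial.eval₂ φ1 y (c.f (some none)) := by
      apply IsFractionRing.injective (MvPowerSeries (Option σ) M) (Fr (MvPowerSeries (Option σ) M))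
      rw [map_mul, ey, ey, hs, mul_left_comm]
    have e2 := congrArg MvPowerSeries.constantCoeff e1
    rw [map_mul, MvPowerSeries.constantCoeff_X, zero_mul, MvPolynomial.eval₂_comp_left] at e2
    have e3 : (MvPowerSeries.constantCoeff : MvPowerSeries (Option σ) M →+* M).comp φ1 =
        algebraMap K M := by
      ext a
      simp [φ1]
    rw [e3] at e2
    exact e2
  · have e : ((lam.comp γ').comp (toE (MP (Option σ) K) F')).comp
        (MvPolynomial.rename some : MP σ K →ₐ[K] MP (Option σ) K).toRingHom =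
        (PChart.cst σ M).comp (MvPolynomial.map (algebraMap K M)) := by
      refine MvPolynomial.ringHom_ext (fun a => ?_) fun j => ?_
      · change lam (γ' (toE _ F' (MvPolynomial.rename some (MvPolynomial.C a)))) =
          PChart.cst σ M (MvPolynomial.map _ (MvPolynomial.C a))
        rw [MvPolynomial.rename_C, hC, lC, MvPolynomial.map_C]
      · change lam (γ' (toE _ F' (MvPolynomial.rename some (MvPolynomial.X j)))) =
          PChart.cst σ M (MvPolynomial.map _ (MvPolynomial.X j))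
        rw [MvPolynomial.rename_X, hS, map_div₀, lN, hl, hSS, map_mul, PowerSeries.coe_X,
          PowerSeries.coe_C, mul_div_cancel_right₀ _ lN0, MvPolynomial.map_X]
        rfl
    exact DFunLike.congr_fun e p
  · rw [RingHom.comp_apply, hN, map_inv₀, lN, HahnSeries.inv_single, inv_one]
  · rw [RingHom.comp_apply, hθ, map_div₀, lN, hl, div_mul_cancel₀ _ lN0]
  · rw [hS0, h1]

end Pool.Agent.ZFy
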