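import Pool.Agent.Lib.MP_751085_ag.ZF.EIf
import Pool.Agent.Lib.MP_751085_ag.ZF.K.Iface
import Pool.Agent.Lib.MP_751085_ag.ZF.L.Ine

/-! The hypotheses of Theorem K. -/

namespace Pool.Agent.ZCy.F

open Pool.Agent.ZFy
open scoped Classical WithZero Polynomial
open groupCohomology

set_option linter.unusedSectionVars false

variable {k : Type} [Field k] {X : Var k} {K σ : Type} [Field K] [Algebra k K] [Fintype σ]

theorem lf_fld (hC : CHFp) {n : ℕ} (hX : X.Nice n) (c : Chart K σ X.N (X.IK K))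
    (hn : Fintype.card σ + 1 = n) : c.GI ∧ ∃ (F' : Type) (_ : Field F')
      (_ : Algebra (RF (Option σ) K) F') (_ : Algebra k F') (θ : F') (γ : X.F →+* F'),
        X.Fld c F' θ γ := by
  obtain ⟨hG, H⟩ := hC k X n hX K σ c hn
  obtain ⟨F', _, _, θ, hF⟩ := hG.exists_FF
  let _ : Algebra k F' :=
    ((toE (MP (Option σ) K) F').comp (MvPolynomial.C.comp (algebraMap k K))).toAlgebra
  obtain ⟨γ, hγ⟩ := H F' θ hF fun _ => rfl
  exact ⟨hG, F', inferInstance, inferInstance, inferInstance, θ, γ, hγ⟩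

variable {c : Chart K σ X.N (X.IK K)} {F' : Type} [Field F'] [Algebra (RF (Option σ) K) F']
  [Algebra k F'] {θ : F'} {γ : X.F →+* F'}

theorem lf_h2 (h : X.Fld c F' θ γ) (hG : c.GI) {a : BR F'}
    (H : ∀ (M : Type) [Field M] [Algebra K M] [Algebra k M] [IsScalarTower k K M]
      (γ' : F' →+* Fr (MvPowerSeries (Option σ) M)) (x : Fin (X.N + 1) → M), X.GermT (γ'.comp γ) x →
      (∀ i, MvPolynomial.eval₂ (algebraMap K M) x (c.f (skip i)) = 0) →
        ∃ β : BR M, rs γ' a = rs (cC (Option σ) M) β) : H2 c.toPChart F' θ a := by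
  obtain ⟨hm, hd⟩ := c.top_monic
  obtain ⟨M, _, _, _, z, hz, hz'⟩ := inf_root hm (hd ▸ c.pos)
  let : Algebra k M := ((algebraMap K M).comp (algebraMap k K)).toAlgebra
  have : IsScalarTower k K M := IsScalarTower.of_algebraMap_eq fun _ => rfl
  obtain ⟨γ', x, lam, h1, h2, h3, h4⟩ := inf_germF h hG hz
  obtain ⟨β, hβ⟩ := H M γ' x h1 h2
  refine ⟨M, inferInstance, inferInstance, inferInstance, z, lam.comp γ', β, hz, hz', h3, ?_⟩
  exact ((res_res γ' lam a).symm.trans (congrArg (rs lam) hβ)).trans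
    ((res_res _ lam β).trans (congrArg (fun f => rs f β) h4))

/-- classes of `X.Bw` are unramified at all valuations that are trivial on `k` -/
theorem lf_unr (e : EvApi X) (h : X.Fld c F' θ γ) {a : BR X.F} (ha : a ∈ X.Bw) {v : Vl F'}
    (hv : Triv ((toE (MP (Option σ) K) F').comp MvPolynomial.C) v) : Unram v (rs γ a) := by
  rw [← e.val_dom a ha F' γ _ h.dom]
  refine e.unram a ha F' _ v h.dom.on fun x hx => ?_
  rw [h.alg]
  exact hv _ ((map_ne_zero (algebraMap k K)).2 hx)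

theorem lf_hk1 (e : EvApi X) (h : X.Fld c F' θ γ) {a : BR X.F} (ha : a ∈ X.Bw) :
    H1 K σ F' (rs γ a) :=
  ⟨fun _ _ hP hc => lf_unr e h ha fun _ hx => le_antisymm (hc.1 _) (not_lt.1 fun hl =>
    hP.not_isUnit (isUnit_of_dvd_unit ((hc.2 _).1 hl) (hx.isUnit.map MvPolynomial.C))),
  fun _ h1 _ => lf_unr e h ha fun x hx => by
    have := h1 _ (MvPolynomial.C_ne_zero.2 hx)
    rwa [up, MvPolynomial.rename_C] at this⟩

theorem lf_hk2 (e : EvApi X) (h : X.Fld c F' θ γ) (hG : c.GI) {a : BR X.F} (ha : a ∈ X.Bw) :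
    H2 c.toPChart F' θ (rs γ a) :=
  lf_h2 h hG fun M _ _ _ _ γ' x h1 _ =>
    ⟨_, (res_res γ γ' a).trans (e.spec a ha M _ _ x h1)⟩

end Pool.Agent.ZCy.F
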