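import Pool.Agent.Lib.MP_751085_ag.ZC.L.Rich
import Pool.Agent.Lib.MP_751085_ag.ZC.L.Red
import Pool.Agent.Lib.MP_751085_ag.ZF.L.Defs

/-! Adjoining enough roots of unity to split the cocycle on inertia groups. -/

namespace Pool.Agent.ZFy

open Pool.Agent.ZCy
open scoped Classical WithZero Polynomial
open groupCohomology

set_option linter.unusedSectionVars false

/-- adjoining the roots of a polynomial; the roots generate the extension -/
theorem enl_genF {A K E : Type} [CommRing A] [Field K] [Field E] [Algebra K E] {α : A →+* K} {Θ : A}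
    [FiniteDimensional K E] [IsGalois K E] (hu : UnrOff K (tE E α) Θ) {h a b : A[X]}
    (hm : h.Monic) {D : A} (h0 : α D ≠ 0) (hb : Polynomial.C D = a * h + b * h.derivative) {n : ℕ}
    (hD : D ∣ Θ ^ n) :
    ∃ (N : Type) (_ : Field N) (_ : Algebra K N) (_ : Algebra E N) (_ : IsScalarTower K E N)
      (_ : FiniteDimensional K N) (_ : IsGalois K N),
      UnrOff K (tE N α) Θ ∧ (h.map (tE N α)).Splits ∧ ∀ g : N ≃ₐ[K] N,
        (∀ x, g (algebraMap E N x) = algebraMap E N x) →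
        (∀ x, h.eval₂ (tE N α) x = 0 → g x = x) → g = 1 := by
  have hs : (h.map (tE E α)).Separable := by
    have e := congrArg (Polynomial.map (tE E α)) hb
    rw [Polynomial.map_C, Polynomial.map_add, Polynomial.map_mul, Polynomial.map_mul,
      ← Polynomial.derivative_map] at e
    have hc : tE E α D ≠ 0 := (map_ne_zero (algebraMap K E)).2 h0
    refine ⟨Polynomial.C (tE E α D)⁻¹ * a.map (tE E α),
      Polynomial.C (tE E α D)⁻¹ * b.map (tE E α), ?_⟩
    rw [mul_assoc, mul_assoc, ← mul_add, ← e, ← map_mul, inv_mul_cancel₀ hc, map_one]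
  obtain ⟨c, hD⟩ := hD
  replace hb : Polynomial.C (Θ ^ n) = Polynomial.C c * a * h + Polynomial.C c * b * h.derivative := by
    rw [hD, map_mul, hb]; ring
  let F := (h.map (tE E α)).SplittingField
  have : IsGalois E F := IsGalois.of_separable_splitting_field hs
  have : FiniteDimensional K F := Module.Finite.trans E F
  have : Algebra.IsSeparable K F := Algebra.IsSeparable.trans K E F
  obtain ⟨N, _, _, _, _, _, _, hN⟩ := exists_gc K F
  let : Algebra E N := ((algebraMap F N).comp (algebraMap E F)).toAlgebra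
  have : IsScalarTower E F N := IsScalarTower.of_algebraMap_eq fun _ => rfl
  have : IsScalarTower K E N := IsScalarTower.of_algebraMap_eq fun x => by
    rw [IsScalarTower.algebraMap_apply K F N, IsScalarTower.algebraMap_apply K E F]; rfl
  have ht : tE N α = (algebraMap E N).comp (tE E α) := by
    rw [← RingHom.comp_assoc, ← IsScalarTower.algebraMap_eq]
  obtain ⟨r, hr⟩ := exists_rs (K := K) (K' := K) (φ := RingHom.id K) (j := algebraMap E N)
    fun x => (IsScalarTower.algebraMap_apply K E N x).symm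
  have hS : ∀ g : N ≃ₐ[K] N, (∀ (t : N ≃ₐ[K] N),
      ∀ x ∈ {x | x ∈ Set.range (algebraMap E N) ∨ h.eval₂ (tE N α) x = 0}, g (t x) = t x) →
      g = 1 := fun g hg => hN g fun k x => by
    have hx : x ∈ Algebra.adjoin E ((h.map (tE E α)).rootSet F) := by
      rw [Polynomial.IsSplittingField.adjoin_rootSet]; trivial
    induction hx using Algebra.adjoin_induction with
    | mem y hy =>
      refine hg k _ (Or.inr ?_)
      have := congrArg (algebraMap F N) (Polynomial.aeval_eq_zero_of_mem_rootSet hy)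
      rwa [map_zero, Polynomial.aeval_def, Polynomial.eval₂_map, Polynomial.hom_eval₂,
        ← RingHom.comp_assoc, ← IsScalarTower.algebraMap_eq, ← ht] at this
    | algebraMap y => exact hg k _ (Or.inl ⟨y, rfl⟩)
    | add y z _ _ hy hz => rw [map_add, map_add, map_add, hy, hz]
    | mul y z _ _ hy hz => rw [map_mul, map_mul, map_mul, hy, hz]
  refine ⟨N, _, _, _, ‹_›, ‹_›, ‹_›, unrOff_of_core _ hS fun P w hP hΘ hc g hg x hx => ?_, ?_,
    fun g h1 h2 => hS g fun t x hx => ?_⟩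
  · rcases hx with ⟨y, rfl⟩ | hx
    · have h1 := hr.ine (Over.comap _ w) hg
      rw [hu P _ hP hΘ ((cen_of_over (Over.comap _ w)).1 (ht ▸ hc)), Subgroup.mem_bot] at h1
      rw [← hr, h1, AlgEquiv.one_apply]
    · exact hc.root_fix hm hb hP hΘ hg hx
  · have := (Polynomial.SplittingField.splits (h.map (tE E α))).map (algebraMap F N)
    rwa [Polynomial.map_map, Polynomial.map_map, ← IsScalarTower.algebraMap_eq, ← ht] at this
  · rcases hx with ⟨y, rfl⟩ | hx
    · rw [← hr, h1]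
    · refine h2 _ ?_
      have e : (t : N →+* N).comp (tE N α) = tE N α := RingHom.ext fun a => t.commutes _
      have := congrArg (t : N →+* N) hx
      rwa [Polynomial.hom_eval₂, e, map_zero] at this

/-- a splitting in roots of unity on an `l`-Sylow subgroup extends -/
theorem rich_syl {G E : Type} [Group G] [Finite G] [Field E] [MulSemiringAction G E]
    {c : G × G → Eˣ} (hc : IsMulCocycle₂ c) {M : ℕ} (hp : ∀ p, c p ^ M = 1) {I S : Subgroup G}
    (hS : S ≤ I) (hco : M.Coprime (S.relIndex I)) (hI : ∀ g ∈ I, ∀ y : Eˣ, y ^ M = 1 → g • y = y)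
    {e : G → Eˣ} (he : ∀ g, e g ^ M = 1) (hs : ∀ g ∈ S, ∀ h ∈ S, c (g, h) = dd e (g, h)) :
    ∃ e : G → Eˣ, (∀ g, e g ^ M = 1) ∧ ∀ g ∈ I, ∀ h ∈ I, c (g, h) = dd e (g, h) := by
  let : MulDistribMulAction G (rootsOfUnity M E) :=
    { smul := fun _ b => b, one_smul := fun _ => rfl, mul_smul := fun _ _ _ => rfl,
      smul_mul := fun _ _ _ => rfl, smul_one := fun _ => rfl }
  let c₀ : G × G → rootsOfUnity M E := fun p => ⟨c p, hp p⟩
  have h1 : CocOn I c₀ := fun g hg h _ j _ => Subtype.ext (by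
    have := hc g h j
    rw [hI g hg _ (hp _)] at this
    exact this)
  have h2 : CobOn S c₀ := ⟨fun g => ⟨e g, he g⟩, fun g hg h hh => Subtype.ext (by
    have := hs g hg h hh
    rw [dd_apply, hI g (hS hg) _ (he _)] at this
    exact this)⟩
  have h3 : CobOn I (c₀ ^ M) := ⟨1, fun g _ h _ => by
    rw [dd_one]
    exact Subtype.ext (hp _)⟩
  obtain ⟨u, hu⟩ := h3.of_coprime (h2.transfer hS h1) hco
  refine ⟨fun g => u g, fun g => (u g).2, fun g hg h hh => ?_⟩
  rw [dd_apply, hI g hg _ (u h).2]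
  exact congrArg Subtype.val (hu g hg h hh)

theorem rich_coreF {G G' E E' : Type} [Group G] [Finite G] [Group G'] [Field E] [Field E']
    [MulSemiringAction G E] [MulSemiringAction G' E'] [FaithfulSMul G E] {j : E →+* E'}
    {r : G' → G} (hcm : ∀ g x, j (r g • x) = g • j x) {c : G × G → Eˣ} (hc : IsMulCocycle₂ c)
    {m M q : ℕ} (hM : M = m * q) (hM0 : 0 < M) (hpm : ∀ p, c p ^ m = 1)
    (hs : (Polynomial.X ^ M - 1 : E'[X]).Splits) (n : G') (ho : orderOf (r n) ∣ q)
    (hn : ∀ z : E', z ^ M = 1 → n • z = z) :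
    ∃ e : G' → E'ˣ, (∀ g, e g ^ M = 1) ∧
      ∀ g ∈ Subgroup.zpowers n, ∀ h ∈ Subgroup.zpowers n, pull j r c (g, h) = dd e (g, h) := by
  have hp : ∀ p, Units.map (j : E →* E') (c p) ^ m = 1 := fun p => by
    rw [← map_pow, hpm, map_one]
  have hp' : ∀ p, Units.map (j : E →* E') (c p) ^ M = 1 := fun p => by
    rw [hM, pow_mul, hp, one_pow]
  let ρ : G' →* G := ⟨⟨r, lk_one hcm⟩, lk_mul hcm⟩
  have hfix : ∀ g ∈ Subgroup.zpowers n, ∀ y : E'ˣ, y ^ M = 1 → g • y = y := fun g hg y hy => by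
    have h1 : n • y = y := Units.ext (hn _ (by rw [← Units.val_pow_eq_pow_val, hy, Units.val_one]))
    exact (Subgroup.zpowers_le.2 (MulAction.mem_stabilizer_iff.2 h1) hg :
      g ∈ MulAction.stabilizer _ y)
  let c₀ : G × G → rootsOfUnity M E' := fun p => ⟨Units.map (j : E →* E') (c p), hp' p⟩
  have h2 : ∀ g ∈ Subgroup.zpowers (ρ n), ∀ h ∈ Subgroup.zpowers (ρ n),
      ∀ k ∈ Subgroup.zpowers (ρ n), c₀ (g * h, k) * c₀ (g, h) = c₀ (h, k) * c₀ (g, h * k) := by
    intro g hg h _ k _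
    rw [← MonoidHom.map_zpowers] at hg
    obtain ⟨g', hg', rfl⟩ := hg
    refine Subtype.ext ?_
    have h1 := congrArg (Units.map (j : E →* E')) (hc (r g') h k)
    rw [map_mul, map_mul, lk_units hcm, hfix g' hg' _ (hp' _)] at h1
    exact h1
  have h3 : ∀ g : ℕ → G × G, ∃ ζ : rootsOfUnity M E', ζ ^ orderOf (ρ n) =
      ∏ i ∈ Finset.range (orderOf (ρ n)), c₀ (g i) := fun g => by
    obtain ⟨k, hk⟩ : orderOf (ρ n) ∣ q := ho
    refine rich_root (k := m * k) (by rw [hM, hk]; ring) hM0 hs _ ?_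
    rw [pow_mul, ← Finset.prod_pow, Finset.prod_eq_one, one_pow]
    exact fun i _ => Subtype.ext (hp _)
  obtain ⟨u, hu⟩ := cyc_split (ρ n) h2 h3
  refine ⟨fun g => (u (ρ g) : E'ˣ), fun g => (u (ρ g)).2, fun g hg h hh => ?_⟩
  have hz : ∀ x ∈ Subgroup.zpowers n, ρ x ∈ Subgroup.zpowers (ρ n) := fun x hx => by
    rw [← MonoidHom.map_zpowers]
    exact ⟨x, hx, rfl⟩
  have h1 := congrArg Subtype.val (hu _ (hz g hg) _ (hz h hh))
  rw [← map_mul] at h1
  change _ = g • (u (ρ h) : E'ˣ) / (u (ρ (g * h)) : E'ˣ) * (u (ρ g) : E'ˣ)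
  rw [hfix g hg _ (u (ρ h)).2]
  exact h1

/-- inertia fixes the roots of unity of invertible order -/
theorem ine_fix {K E : Type} [Field K] [Field E] [Algebra K E] {w : Vl E} {n : E ≃ₐ[K] E}
    (hn : n ∈ Ine K w) {m : ℕ} (hm : w (m : E) = 1) {z : E} (hz : z ^ m = 1) : n z = z := by
  have hm0 : m ≠ 0 := fun u => by simp [u] at hm
  refine kum hn hm (a := 1) (by rw [hz, map_one]) (map_one n) ?_
  rw [root_val hm0 hz, map_one]

variable {K ι : Type} [Field K] {Θ : MP ι K} {F : Type} [Field F] [Algebra (RF ι K) F]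

/-- the cocycle splits in roots of unity on the inertia groups -/
def MuC.Rich (R : MuC Θ F) (l : ℕ) : Prop :=
  ∀ w : Vl R.E, w (l : R.E) = 1 → ∃ e : (R.E ≃ₐ[F] R.E) → R.Eˣ, (∀ g, e g ^ R.m = 1) ∧
    ∀ g ∈ Ine F w, ∀ h ∈ Ine F w, R.c (g, h) = dd e (g, h)

/-- enlarge the field by roots of unity of `l`-power order -/
theorem MuC.exists_rich (R : MuC Θ F) {l s : ℕ} (hl : l.Prime) (hl0 : (l : K) ≠ 0)
    (hm : R.m = l ^ s) : ∃ (R' : MuC Θ F) (j : R.E →ₐ[RF ι K] R'.E)
      (r : (R'.E ≃ₐ[F] R'.E) → R.E ≃ₐ[F] R.E), R'.Rich l ∧ (∃ s', R'.m = l ^ s') ∧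
      (∀ a, j (algebraMap F R.E a) = algebraMap F R'.E a) ∧ (∀ g x, j (r g x) = g (j x)) ∧
      R'.c = pull (j : R.E →+* R'.E) r R.c ∧ ∀ g : R'.E ≃ₐ[RF ι K] R'.E, (∀ x, g (j x) = j x) →
        (∀ x, x ^ R'.m = 1 → g x = x) → g = 1 := by
  have hfin : FiniteDimensional F R.E := Module.Finite.right (RF ι K) F R.E
  have hgal : IsGalois F R.E := IsGalois.tower_top_of_isGalois (RF ι K) F R.E
  have := Fact.mk hl
  set q := l ^ (Nat.card (R.E ≃ₐ[F] R.E)).factorization l with hq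
  set M := R.m * q with hM
  have hMl : M = l ^ (s + (Nat.card (R.E ≃ₐ[F] R.E)).factorization l) := by rw [hM, hm, pow_add]
  have hM0 : 0 < M := hMl ▸ pow_pos hl.pos _
  have hMK : (M : K) ≠ 0 := by rw [hMl, Nat.cast_pow]; exact pow_ne_zero _ hl0
  have hu : IsUnit (M : MP ι K) := by
    rw [← map_natCast (MvPolynomial.C : K →+* MP ι K)]
    exact hMK.isUnit.map _
  obtain ⟨E', i1, i2, i7, i8, i3, i4, hU, hs, hgen⟩ := enl_genF (K := RF ι K) (E := R.E)
    (α := algebraMap (MP ι K) (RF ι K)) (Θ := Θ) R.unr (h := Polynomial.X ^ M - 1)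
    (a := -Polynomial.C (M : MP ι K)) (b := Polynomial.X) (D := (M : MP ι K)) (n := 0)
    (by simpa using Polynomial.monic_X_pow_sub_C (1 : MP ι K) hM0.ne') (hu.map _).ne_zero
    (by
      obtain ⟨l, hl⟩ : ∃ l, M = l + 1 := ⟨M - 1, by omega⟩
      rw [hl]
      simp only [Polynomial.derivative_sub, Polynomial.derivative_X_pow, Polynomial.derivative_one,
        Nat.add_sub_cancel]
      ring)
    (by rw [pow_zero]; exact hu.dvd)
  let j := IsScalarTower.toAlgHom (RF ι K) R.E E'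
  let i5 : Algebra F E' := ((j : R.E →+* E').comp (algebraMap F R.E)).toAlgebra
  have i6 : IsScalarTower (RF ι K) F E' := .of_algebraMap_eq fun x => by
    change _ = j (algebraMap F R.E (algebraMap (RF ι K) F x))
    rw [← IsScalarTower.algebraMap_apply, j.commutes]
  have hfin' : FiniteDimensional F E' := Module.Finite.right (RF ι K) F E'
  have hgal' : IsGalois F E' := IsGalois.tower_top_of_isGalois (RF ι K) F E'
  obtain ⟨r, hr⟩ := exists_rs (K := F) (E := R.E) (K' := F) (E' := E') (φ := RingHom.id F)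
    (j := (j : R.E →+* E')) fun _ => rfl
  have hcm : ∀ (g : E' ≃ₐ[F] E') (x : R.E), (j : R.E →+* E') (r g • x) = g • (j : R.E →+* E') x :=
    hr
  have hp' : ∀ p, pull (j : R.E →+* E') r R.c p ^ M = 1 := fun p => by
    rw [pull, ← map_pow, hM, pow_mul, R.pow, one_pow, map_one]
  have hs' : (Polynomial.X ^ M - 1 : E'[X]).Splits := by simpa using hs
  refine ⟨@MuC.mk K ι _ Θ F _ _ E' i1 i2 i5 i6 i3 i4 M (pull (j : R.E →+* E') r R.c) hMK hU
    (pull_coc hcm R.coc) hp', j, r, fun w hw => ?_, ⟨_, hMl⟩, fun _ => rfl, hr, rfl,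
    fun g h1 h2 => hgen g h1 fun x hx => h2 x (by simpa [sub_eq_zero] using hx)⟩
  change Vl E' at w
  have hpw : ∀ a : ℕ, w ((l ^ a : ℕ) : E') = 1 := fun a => by
    rw [Nat.cast_pow, map_pow, show w (l : E') = 1 from hw, one_pow]
  have hwM : w (M : E') = 1 := hMl ▸ hpw _
  obtain ⟨S⟩ : Nonempty (Sylow l (Ine F w)) := inferInstance
  have hle : S.1.map (Ine F w).subtype ≤ Ine F w := Subgroup.map_subtype_le _
  have hP : IsPGroup l (S.1.map (Ine F w).subtype) := S.2.map _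
  obtain ⟨a, ha⟩ := IsPGroup.iff_card.1 hP
  have := isCyclic_of_le hle (ha ▸ hpw a)
  obtain ⟨n, hn⟩ := IsCyclic.exists_generator (α := S.1.map (Ine F w).subtype)
  have hz : ∀ g ∈ S.1.map (Ine F w).subtype, g ∈ Subgroup.zpowers (n : E' ≃ₐ[F] E') := fun g hg => by
    obtain ⟨i, hi⟩ := hn ⟨g, hg⟩
    exact ⟨i, congrArg Subtype.val hi⟩
  obtain ⟨e, he1, he2⟩ := rich_coreF hcm R.coc hM hM0 R.pow hs' (n : E' ≃ₐ[F] E') (by
    obtain ⟨b, hb⟩ := hP n
    have h1 : orderOf (r n) ∣ l ^ b := orderOf_dvd_of_pow_eq_one (by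
      rw [← map_pow, show (n : E' ≃ₐ[F] E') ^ l ^ b = 1 from congrArg Subtype.val hb, map_one])
    obtain ⟨i, -, hi⟩ := (Nat.dvd_prime_pow hl).1 h1
    rw [hi]
    exact pow_dvd_pow l ((hl.pow_dvd_iff_le_factorization Nat.card_pos.ne').1
      (hi ▸ orderOf_dvd_natCard (r n)))) fun z hz => ine_fix (hle n.2) hwM hz
  refine rich_syl (pull_coc hcm R.coc) hp' hle ?_ (fun g hg y hy => Units.ext (ine_fix hg hwM
    (by rw [← Units.val_pow_eq_pow_val, hy, Units.val_one]))) he1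
    fun g hg h hh => he2 g (hz g hg) h (hz h hh)
  have h9 : (S.1.map (Ine F w).subtype).relIndex (Ine F w) = S.1.index :=
    congrArg Subgroup.index (Subgroup.comap_map_eq_self_of_injective (Ine F w).subtype_injective _)
  have h10 := ((Nat.Prime.coprime_iff_not_dvd hl).2 S.not_dvd_index).pow_left
    (s + (Nat.card (R.E ≃ₐ[F] R.E)).factorization l)
  rwa [← hMl, ← h9] at h10

/-- the relative `l`-extension property survives the adjunction of constants -/
theorem LOver.enl {k σ T E E' : Type} [Field k] [Fintype σ] [Field T] [Field E] [Field E']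
    [Algebra (RF (Option (Option σ)) k) T] [Algebra (RF (Option σ) k) E]
    [Algebra (RF (Option σ) k) E'] [Normal (RF (Option σ) k) E] {l : ℕ} (h : LOver k σ l T E)
    (j : E →ₐ[RF (Option σ) k] E') {m : ℕ} (hm : m ≠ 0)
    (hg : ∀ g : E' ≃ₐ[RF (Option σ) k] E', (∀ x, g (j x) = j x) → (∀ x, x ^ m = 1 → g x = x) →
      g = 1) : LOver k σ l T E' := by
  obtain ⟨w, ρ, ⟨h1, h2, h3⟩, h4⟩ := h
  obtain ⟨r, hr⟩ := exists_rs (K := RF (Option σ) k) (K' := RF (Option σ) k) (φ := RingHom.id _)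
    (j := (j : E →+* E')) j.commutes
  refine ⟨w, (j : E →+* E').comp ρ, ⟨h1, h2.comp _, fun p y hy => ?_⟩, fun g => ?_⟩
  · rw [RingHom.comp_apply, h3 p y hy]
    exact j.commutes _
  have e : (j : E →+* E').comp ((toE (MP (Option σ) k) E).comp MvPolynomial.C) =
      (toE (MP (Option σ) k) E').comp MvPolynomial.C := RingHom.ext fun a => j.commutes _
  obtain ⟨a, ha⟩ := h4 ⟨r g, fun x hx => j.injective ((hr g x).trans (g.2 _ (by
    rcases hx with ⟨y, rfl⟩ | ⟨p, hp, hp'⟩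
    · exact Or.inl ⟨y, rfl⟩
    · refine Or.inr ⟨p, hp, ?_⟩
      rw [← e, ← Polynomial.hom_eval₂, hp', map_zero])))⟩
  refine ⟨a, Subtype.ext (hg _ (fun x => ?_) fun x hx => (g ^ l ^ a).2 x (Or.inr
    ⟨Polynomial.X ^ m - Polynomial.C 1, Polynomial.monic_X_pow_sub_C 1 hm, by simp [hx]⟩))⟩
  have h5 : r ((g ^ l ^ a : fixS _ _) : E' ≃ₐ[RF (Option σ) k] E') = 1 := by
    rw [SubmonoidClass.coe_pow, map_pow]
    exact congrArg Subtype.val ha
  exact (hr _ x).symm.trans (by rw [h5]; rfl)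

end Pool.Agent.ZFy
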