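import Pool.Agent.Lib.MP_751085_ag.ZC.V.AdL
import Pool.Agent.Lib.MP_751085_ag.ZC.Z.Flp
import Pool.Agent.Lib.MP_751085_ag.ZF.L.Defs
import Pool.Agent.Lib.MP_751085_ag.ZF.Z.Iface

/-! The Lefschetz theorem in the standard coordinates. -/

namespace Pool.Agent.ZFy

open Pool.Agent.ZCy
open scoped Classical WithZero Polynomial

set_option linter.unusedSectionVars false

theorem zl_equiv {A K K' : Type} [CommRing A] [Field K] [Field K'] {α : A →+* K} {β : A →+* K'}
    (hα : IsFr α) (hβ : IsFr β) : ∃ ψ : K ≃+* K', ∀ a, ψ (α a) = β a := by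
  obtain ⟨φ, hφ⟩ := hα.exists_lift hβ.1
  refine ⟨RingEquiv.ofBijective φ ⟨φ.injective, fun x => ?_⟩, hφ⟩
  obtain ⟨a, b, hb, hx⟩ := hβ.2 x
  exact ⟨α a / α b, by rw [map_div₀, hφ, hφ, ← hx, mul_div_cancel_right₀ _ (hβ.vfrc_ne hb)]⟩

variable {k σ : Type} [Field k] [Fintype σ]

theorem zlat_of {L T T' : Type} [Field L] [Field T] [Algebra L T] [Field T']
    [Algebra (RF (Option (Option σ)) k) T'] {α : MP (Option (Option σ)) k →+* L} (hα : IsFr α)
    {l : ℕ} {Θ : MP (Option (Option σ)) k} (h : ZLef T l α Θ) (e : T ≃+* T')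
    (he : ∀ p, e (tE T α p) = toE _ T' p) : ZLat l Θ T' := by
  rintro EH _ _ _ _ hU ⟨w', ρ', ⟨hc', hr', hb'⟩, hl⟩
  have ho : Over (e : T →+* T') (w'.comap (e : T →+* T')) w' := fun _ => Iff.rfl
  have hs : Set.range (ρ'.comp ho.int) = Set.range ρ' := by
    refine Set.Subset.antisymm (by rintro _ ⟨y, rfl⟩; exact ⟨_, rfl⟩) ?_
    rintro _ ⟨y, rfl⟩
    refine ⟨⟨e.symm y, ?_⟩, congrArg ρ' (Subtype.ext (e.apply_symm_apply _))⟩
    change w' (e (e.symm y)) ≤ 1
    rw [e.apply_symm_apply]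
    exact y.2
  obtain ⟨E, _, _, _, _, ⟨Z⟩⟩ := h (RF (Option σ) k) EH (algebraMap _ _) _ (ρ'.comp ho.int)
    (isFr_alg _ _) hU ⟨hr'.comp_int ho, fun p => ⟨by
      change w' (e _) ≤ 1
      rw [he]
      exact hc'.1 p, hb' p _ (he p)⟩⟩ (hs ▸ hl)
  have hβ := isFr_alg (MP (Option (Option σ)) k) (RF (Option (Option σ)) k)
  obtain ⟨ψ, hψ⟩ := zl_equiv hβ hα
  let : Algebra (RF (Option (Option σ)) k) E := ((algebraMap L E).comp (ψ : _ →+* L)).toAlgebra
  have hcm : (algebraMap (RF (Option (Option σ)) k) E).comp (ψ.symm : L →+* _) =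
      ((RingEquiv.refl E : E ≃+* E) : E →+* E).comp (algebraMap L E) :=
    RingHom.ext fun a => congrArg (algebraMap L E) (ψ.apply_symm_apply a)
  have : FiniteDimensional (RF (Option (Option σ)) k) E :=
    Module.Finite.of_equiv_equiv ψ.symm (RingEquiv.refl E) hcm
  have : IsGalois (RF (Option (Option σ)) k) E := IsGalois.of_equiv_equiv hcm
  have hE : toE (MP (Option (Option σ)) k) E = tE E α :=
    RingHom.ext fun p => congrArg (algebraMap L E) (hψ p)
  let s : (E ≃ₐ[RF (Option (Option σ)) k] E) → E ≃ₐ[L] E := fun g =>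
    { g with commutes' := fun a => by
              obtain ⟨b, rfl⟩ := ψ.surjective a
              exact g.commutes b }
  have hjp : ∀ p, Z.j (tE T α p) = toE _ E p := fun p => by
    rw [hE]
    exact Z.hj _
  have hw1 : ∀ p, Z.w (toE _ E p) ≤ 1 := fun p => by
    rw [← hjp]
    refine (Z.ov _).2 ?_
    change w' (e _) ≤ 1
    rw [he]
    exact hc'.1 p
  have hb : ∀ (p : MP (Option (Option σ)) k) (y : Z.w.integer), (y : E) = toE _ E p →
      Z.ρ y = toE (MP (Option σ) k) EH (hyp p) := fun p y hy => by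
    have h1 : (w'.comap (e : T →+* T')) (tE T α p) ≤ 1 := by
      change w' (e _) ≤ 1
      rw [he]
      exact hc'.1 p
    rw [show y = Z.ov.int ⟨_, h1⟩ from Subtype.ext (hy.trans (hjp p).symm), Z.hρ]
    exact hb' p _ (he p)
  have hinj : Function.Injective (toE (MP (Option σ) k) EH) :=
    (algebraMap (RF (Option σ) k) EH).injective.comp (IsFractionRing.injective (MP (Option σ) k) _)
  have hc : Cen (toE (MP (Option (Option σ)) k) E) Z.w (MvPolynomial.X (some none)) :=
    ⟨hw1, fun p => by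
      rw [← Z.red ⟨_, hw1 p⟩, hb p _ rfl, map_eq_zero_iff _ hinj, hyp_eq_zero]⟩
  have hi : ∀ a, Z.j (e.symm (algebraMap (RF (Option (Option σ)) k) T' a)) = algebraMap _ E a :=
    fun a => DFunLike.congr_fun (hβ.hom_ext
      (φ := (Z.j.comp (e.symm : T' →+* T)).comp (algebraMap _ T')) (φ' := algebraMap _ E) fun p => by
        change Z.j (e.symm (toE _ T' p)) = toE _ E p
        rw [← he, e.symm_apply_apply, hjp]) a
  refine ⟨E, inferInstance, inferInstance, inferInstance, inferInstance,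
    { Z.j.comp (e.symm : T' →+* T) with commutes' := hi }, Z.w, EH, inferInstance, Z.ρ,
    RingHom.id EH, fun P w hP hd hw => ?_, fun w hw => ?_, ⟨hc, Z.red, hb⟩,
    fun z _ => Z.surj z, fun m z hm hz => ?_, fun P W hP hd hW => ?_⟩
  · refine (Subgroup.eq_bot_iff_forall _).2 fun g hg => AlgEquiv.ext fun x => ?_
    exact DFunLike.congr_fun ((Subgroup.eq_bot_iff_forall _).1 (Z.unr P w hP hd (hE ▸ hw)) (s g)
      ⟨hg.1, hg.2⟩) x
  · obtain ⟨g, hg⟩ := lv_conj (K := RF (Option (Option σ)) k) (w := Z.w) (w' := w)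
      (Cen.iff hβ MvPolynomial.X_prime (v := Z.w.comap (algebraMap (RF (Option (Option σ)) k) E))
        (v' := w.comap (algebraMap (RF (Option (Option σ)) k) E)) ⟨hc.1, hc.2⟩ ⟨hw.1, hw.2⟩)
    refine dec_top_of_conj hg (eq_top_iff.2 fun g _ => ?_)
    exact (Z.dec.ge (Subgroup.mem_top (s g)) :)
  · have hm0 : m ≠ 0 := fun u => hm (by rw [u, Nat.cast_zero])
    obtain ⟨y, ⟨p, hp, hp'⟩, hy⟩ := Z.cst z ⟨Polynomial.X ^ m - Polynomial.C 1,
      Polynomial.monic_X_pow_sub_C 1 hm0, by simp [hz]⟩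
    refine ⟨y, ?_, hy⟩
    by_contra h0
    let : Algebra k E := ((tE E α).comp MvPolynomial.C).toAlgebra
    have ht : Triv (algebraMap k E) Z.w := fun a ha => by
      change Z.w (tE E α (MvPolynomial.C a)) = 1
      rw [← hE, hc.eq_one]
      exact fun u => MvPolynomial.X_prime.not_isUnit
        (isUnit_of_dvd_unit u (ha.isUnit.map MvPolynomial.C))
    have hi : IsIntegral k (y : E) := ⟨p, hp, hp'⟩
    have h1 := ht.eq_one (sub_ne_zero.2 h0) ((hi.pow m).sub isIntegral_one).isAlgebraic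
    have h2 := (Z.red (y ^ m - 1)).1 (by rw [map_sub, map_pow, hy, hz, map_one, sub_self])
    exact h2.ne h1
  · obtain ⟨Q, -, hQ, h1, h2⟩ := Z.dl P W hP hd (hE ▸ hW)
    refine ⟨EH, inferInstance, Z.ρ, Q, Z.red, fun a y ha hy => ?_, fun g hg y y' hy => ?_,
      fun n hn y y' hy hy1 => ?_⟩
    · rw [hb _ y hy, show hyp (MvPolynomial.C a : MP (Option (Option σ)) k) = MvPolynomial.C a from
        MvPolynomial.eval₂Hom_C _ _ _]
      exact hQ a ha
    · rw [Z.act (s g) y y' hy]
      exact h1 (s g) hg _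
    · rw [Z.act (s n) y y' hy]
      exact (h2 (s n) ⟨hn.1, hn.2⟩).2 _ hy1

/-- the matrices are inverse to each other -/
def MInv (L L' : Matrix σ σ k) : Prop := L * L' = 1

theorem MInv.symm {L L' : Matrix σ σ k} (h : MInv L L') : MInv L' L := mul_eq_one_comm.1 h

theorem MInv.aff {L L' : Matrix σ σ k} (h : MInv L L') (p : MP (Option σ) k) :
    aff 0 (extM L') (aff 0 (extM L) p) = p := by
  have h1 : MInv (extM L) (extM L') := Matrix.ext fun i j => by
    rw [extM_mul, h, extM_one]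
    by_cases u : i = j <;> simp [Matrix.one_apply, u]
  rw [aff_aff, h1, Matrix.mulVec_zero, add_zero, aff_one]

/-- the linear change as an automorphism -/
noncomputable def MInv.eqv {L L' : Matrix σ σ k} (h : MInv L L') :
    MP (Option σ) k ≃+* MP (Option σ) k :=
  RingEquiv.ofBijective (ZCy.aff 0 (extM L') : MP (Option σ) k →+* MP (Option σ) k)
    ⟨Function.LeftInverse.injective h.symm.aff, Function.RightInverse.surjective h.aff⟩

/-- the Lefschetz theorem after a linear change of coordinates -/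
theorem zlat_tw {T T' : Type} [Field T] [Algebra (RF (Option (Option σ)) k) T] [Field T']
    [Algebra (RF (Option (Option σ)) k) T'] {l : ℕ} {Θ : MP (Option (Option σ)) k}
    {a : Option σ → k} (h : ZHyp T l (algebraMap _ (RF (Option (Option σ)) k)) Θ a)
    {L L' : Matrix (Option σ) (Option σ) k} (hL : MInv L L') (ha : L' none = a)
    (hT : Tw L T T') : ZLat l (aff 0 (extM L) Θ) T' := by
  obtain ⟨e, he⟩ := hT
  have h1 : L * L' = 1 := Matrix.ext fun i j => (congrFun (congrFun hL i) j).trans (by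
    by_cases u : i = j <;> simp [Matrix.one_apply, u])
  have h2 := (isFr_alg (MP (Option (Option σ)) k) (RF (Option (Option σ)) k)).comp_equiv hL.eqv
  exact zlat_of h2 (h L L' h1 ha) e fun p => (he _).trans (congrArg _ (hL.symm.aff p))

end Pool.Agent.ZFy
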