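import Pool.Agent.Lib.MP_751085_ag.ZF.C.Defs
import Pool.Agent.Lib.MP_751085_ag.ZF.EDefs

/-! The Lefschetz property for the primes different from the characteristic: statement. -/

namespace Pool.Agent.ZCy.F

open scoped Classical

/-- the classes of `l`-power order, `l ∣ Λ`, lift from the section given by the hyperplane `a` -/
def LfL {k : Type} [Field k] (X : Var k) (n Λ : ℕ) {σ : Type} [Fintype σ]
    (c : Chart k (Option σ) X.N (X.IK k)) (Φ : MP (Option σ) k) (a : Option σ → k) : Prop :=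
  ∀ (c' : Chart k (Option σ) X.N (X.IK k)) (L L' : Matrix (Option σ) (Option σ) k) (Y : Gen k X.N)
    (c'' : Chart k σ X.N (Y.var.IK k)), L' none = a → c.IsLin c' L L' → c'.SM (aff 0 L Φ) →
    Y.var.Nice (n - 1) → X.Sec Y (c'.f (some (some none))) → c'.IsHyp c'' →
    c''.SM (hyp0 (aff 0 L Φ)) → ∀ l, l.Prime → l ∣ Λ → ∀ α ∈ Y.var.Bw, Prim l α →
      ∃ b, X.Mt Y α b ∧ Prim l b

/-- the Lefschetz property holds for almost all members of general pencils -/
def LEFl : Prop := ∀ (k : Type) [Field k] [Infinite k] (X : Var k) (n : ℕ), X.Nice n → 4 ≤ n →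
  ∀ (σ : Type) [Fintype σ], Fintype.card σ + 2 = n → ∀ Λ : ℕ, (Λ : k) ≠ 0 →
  ∀ (J : Jets k X.N) (c : Chart k (Option σ) X.N (X.IK k)) (Φ : MP (Option σ) k), X.ZCh J c Φ →
    Pen (LfL X n Λ c Φ)

end Pool.Agent.ZCy.F
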