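import Pool.Agent.Lib.MP_751085_ag.ZC.V.Sep
import Pool.Agent.Lib.MP_751085_ag.ZF.Defs
import Pool.Agent.Lib.MP_751085_ag.ZF.L.Zne

/-! A cover that is unramified off `Θ` gives a Galois covering of the local ring at a point
off `Θ`. -/

namespace Pool.Agent.ZFy

open Pool.Agent.ZCy
open scoped Classical WithZero Polynomial Pointwise

set_option linter.unusedSectionVars false

/-- Euler's lemma -/
theorem cov_euler {A F : Type} [CommRing A] [IsDomain A] [IsIntegrallyClosed A] [Field F]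
    [Algebra (Fr A) F] [FiniteDimensional (Fr A) F] [Algebra.IsSeparable (Fr A) F] {χ : A[X]}
    (hm : χ.Monic) (hi : Irreducible (χ.map (algebraMap A (Fr A)))) {θ : F}
    (h0 : χ.eval₂ (toE A F) θ = 0) (ht : Algebra.adjoin (Fr A) {θ} = ⊤) {z : F}
    (hz : (toE A F).IsIntegralElem z) :
    ∃ p : A[X], χ.derivative.eval₂ (toE A F) θ * z = p.eval₂ (toE A F) θ := by
  let : Algebra A F := (toE A F).toAlgebra
  have : IsScalarTower A (Fr A) F := IsScalarTower.of_algebraMap_eq fun _ => rfl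
  have hθ : IsIntegral A θ := ⟨χ, hm, h0⟩
  have hmin : χ.map (algebraMap A (Fr A)) = minpoly (Fr A) θ :=
    minpoly.eq_of_irreducible_of_monic hi (by
      rw [Polynomial.aeval_def, Polynomial.eval₂_map]; exact h0) (hm.map _)
  have h1 : z ∈ (Algebra.traceForm (Fr A) F).dualSubmodule
      (Subalgebra.toSubmodule (Algebra.adjoin A {θ})) := fun y hy => by
    have h2 : IsIntegral A y := (IsIntegral.of_mem_of_fg _ (hθ.fg_adjoin_singleton) y hy)
    exact Submodule.mem_one.2 (IsIntegrallyClosed.algebraMap_eq_of_integral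
      (Algebra.isIntegral_trace (IsIntegral.mul hz h2)))
  rw [traceForm_dualSubmodule_adjoin A (Fr A) ht hθ, ← hmin, Polynomial.derivative_map,
    Polynomial.aeval_def, Polynomial.eval₂_map] at h1
  have h3 : χ.derivative.eval₂ (toE A F) θ ≠ 0 := by
    have := (Algebra.IsSeparable.isSeparable (Fr A) θ).aeval_derivative_ne_zero
      (minpoly.aeval (Fr A) θ)
    rwa [← hmin, Polynomial.derivative_map, Polynomial.aeval_def, Polynomial.eval₂_map] at this
  obtain ⟨y, hy, rfl⟩ := h1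
  rw [Subalgebra.coe_toSubmodule, Algebra.adjoin_singleton_eq_range_aeval] at hy
  obtain ⟨p, rfl⟩ := hy
  exact ⟨p, mul_inv_cancel_left₀ h3 _⟩

variable {k : Type} [Field k] {X : Var k} {M : Type} [Field M] [Algebra k M]
  {x : Fin (X.N + 1) → M} {f g : X.F} {m m' : M}

theorem lreg_den (hx : X.On x) {H : Fm X.N k} {d : ℕ} (hH : H.IsHomogeneous d)
    (h : MvPolynomial.aeval x H ≠ 0) : MvPolynomial.aeval X.g H ≠ 0 :=
  fun e => h (hx.2 H ⟨⟨d, hH⟩, e⟩)

theorem lreg_mul (h : X.Reg x f m) (h' : X.Reg x g m') : X.Reg x (f * g) (m * m') := by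
  obtain ⟨d, G, H, h1, h2, h3, h4, h5⟩ := h
  obtain ⟨d', G', H', h1', h2', h3', h4', h5'⟩ := h'
  refine ⟨d + d', G * G', H * H', h1.mul h1', h2.mul h2', ?_, ?_, ?_⟩
  · rw [map_mul]
    exact mul_ne_zero h3 h3'
  · rw [map_mul, map_mul, ← h4, ← h4']
    ring
  · rw [map_mul, map_mul, ← h5, ← h5']
    ring

theorem lreg_add (h : X.Reg x f m) (h' : X.Reg x g m') : X.Reg x (f + g) (m + m') := by
  obtain ⟨d, G, H, h1, h2, h3, h4, h5⟩ := h
  obtain ⟨d', G', H', h1', h2', h3', h4', h5'⟩ := h'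
  refine ⟨d + d', G * H' + H * G', H * H', (h1.mul h2').add (h2.mul h1'), h2.mul h2', ?_, ?_, ?_⟩
  · rw [map_mul]
    exact mul_ne_zero h3 h3'
  · rw [map_add, map_mul, map_mul, map_mul, ← h4, ← h4']
    ring
  · rw [map_add, map_mul, map_mul, map_mul, ← h5, ← h5']
    ring

theorem lreg_const (a : k) : X.Reg x (algebraMap k _ a) (algebraMap k M a) :=
  ⟨0, MvPolynomial.C a, 1, MvPolynomial.isHomogeneous_C _ _, MvPolynomial.isHomogeneous_one _ _,
    by simp, by simp, by simp⟩

theorem lreg_div (h : X.Reg x (f * g) m) (h' : X.Reg x g m') (h0 : m' ≠ 0) :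
    X.Reg x f (m / m') := by
  obtain ⟨d, G, H, h1, h2, h3, h4, h5⟩ := h
  obtain ⟨d', G', H', h1', h2', h3', h4', h5'⟩ := h'
  refine ⟨d + d', G * H', H * G', h1.mul h2', h2.mul h1', ?_, ?_, ?_⟩
  · rw [map_mul, ← h5']
    exact mul_ne_zero h3 (mul_ne_zero h0 h3')
  · rw [map_mul, map_mul, ← h4, ← h4']
    ring
  · rw [map_mul, map_mul, ← h5, ← h5']
    field_simp

variable {σ : Type} [Fintype σ] {c : Chart k σ X.N (X.IK k)} {F' : Type} [Field F']
  [Algebra (RF (Option σ) k) F'] [Algebra k F'] {θ : F'} {γ : X.F →+* F'} {Θ : MP (Option σ) k}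

/-- polynomials in the chart coordinates are regular -/
theorem lreg_poly (h : X.Fld c F' θ γ) (h0 : MvPolynomial.eval₂ (algebraMap k M) x (c.f none) ≠ 0)
    (p : (MP (Option σ) k)[X]) : ∃ f, γ f = p.eval₂ (toE _ F') θ ∧
      X.Reg x f (ev (algebraMap k M) (c.xi (algebraMap k M) x) (c.tht (algebraMap k M) x) p) := by
  obtain ⟨c0, cX, cθ⟩ := h.coord
  have e : (toE (MP (Option σ) k) F').comp MvPolynomial.C = γ.comp (algebraMap k X.F) :=
    RingHom.ext fun a => (h.alg a).symm.trans (h.dom.1 a).symm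
  have e2 : ∀ G, MvPolynomial.eval₂ ((toE (MP (Option σ) k) F').comp MvPolynomial.C)
      (fun i => γ (X.g i)) G = γ (MvPolynomial.aeval X.g G) := fun G => by
    rw [e, MvPolynomial.aeval_def, MvPolynomial.eval₂_comp_left]
    rfl
  have hq : ∀ G : Fm X.N k, G.IsHomogeneous c.d → X.Reg x
      (MvPolynomial.aeval X.g G / MvPolynomial.aeval X.g (c.f none))
      (MvPolynomial.eval₂ (algebraMap k M) x G / MvPolynomial.eval₂ (algebraMap k M) x (c.f none)) :=
    fun G hG => ⟨c.d, G, c.f none, hG, c.hf none, h0,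
      div_mul_cancel₀ _ fun u => c0 (by rw [e2, u, map_zero]), div_mul_cancel₀ _ h0⟩
  have h1 : ∀ q : MP (Option σ) k, ∃ f, γ f = toE _ F' q ∧
      X.Reg x f (MvPolynomial.eval₂ (algebraMap k M) (c.xi (algebraMap k M) x) q) := fun q => by
    induction q using MvPolynomial.induction_on with
    | C a => exact ⟨_, (h.dom.1 a).trans (h.alg a), by rw [MvPolynomial.eval₂_C]; exact lreg_const a⟩
    | add p q hp hq =>
      obtain ⟨f, h1, h2⟩ := hp
      obtain ⟨g, h3, h4⟩ := hq
      exact ⟨f + g, by rw [map_add, map_add, h1, h3], by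
        rw [MvPolynomial.eval₂_add]; exact lreg_add h2 h4⟩
    | mul_X p i hp =>
      obtain ⟨f, h1, h2⟩ := hp
      refine ⟨_, ?_, by
        rw [MvPolynomial.eval₂_mul, MvPolynomial.eval₂_X]
        exact lreg_mul h2 (hq _ (c.hf (some i)))⟩
      rw [map_mul, map_mul, h1, ← cX, Chart.xi, e2, e2, map_div₀]
  induction p using Polynomial.induction_on with
  | C a => simpa using h1 a
  | add p q hp hq =>
    obtain ⟨f, h1, h2⟩ := hp
    obtain ⟨g, h3, h4⟩ := hq
    exact ⟨f + g, by rw [map_add, Polynomial.eval₂_add, h1, h3], by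
      rw [map_add]; exact lreg_add h2 h4⟩
  | monomial n a hp =>
    obtain ⟨f, h1, h2⟩ := hp
    refine ⟨_, ?_, by
      rw [pow_succ, ← mul_assoc, map_mul, ev_X]
      exact lreg_mul h2 (hq _ c.hth)⟩
    rw [pow_succ, ← mul_assoc, Polynomial.eval₂_mul, Polynomial.eval₂_X, map_mul, h1, map_div₀,
      ← e2, ← e2]
    exact congrArg _ cθ

/-- regular functions are quotients of polynomials in the chart coordinates -/
theorem lreg_frac (h : X.Fld c F' θ γ) {n : ℕ} (hD : c.D ∣ Θ ^ n) (hx : X.On x)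
    (ho : c.Off Θ (algebraMap k M) x) (hf : X.Reg x f m) : ∃ p q : (MP (Option σ) k)[X],
      ev (algebraMap k M) (c.xi (algebraMap k M) x) (c.tht (algebraMap k M) x) q ≠ 0 ∧
      q.eval₂ (toE _ F') θ * γ f = p.eval₂ (toE _ F') θ ∧
      m * ev (algebraMap k M) (c.xi (algebraMap k M) x) (c.tht (algebraMap k M) x) q =
        ev (algebraMap k M) (c.xi (algebraMap k M) x) (c.tht (algebraMap k M) x) p := by
  obtain ⟨d, G, H, h1, h2, h3, h4, h5⟩ := hf
  obtain ⟨-, -, u, hu, e⟩ := ho.coord ((Var.zer_IKL (algebraMap k M) (fun _ => rfl) x).2 hx.2) hD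
  obtain ⟨-, u', -, e'⟩ := h.dom
  have e1 : ∀ G : Fm X.N k, G.IsHomogeneous d → ev (algebraMap k M) (c.xi (algebraMap k M) x)
      (c.tht (algebraMap k M) x) (sb c.pp G) = u ^ d * MvPolynomial.aeval x G := fun G hG => by
    rw [ev_sb, MvPolynomial.aeval_def, ← bas_hom hG]
    exact congrArg (fun y => MvPolynomial.eval₂ _ y G) e
  have e0 : (toE (MP (Option σ) k) F').comp MvPolynomial.C = γ.comp (algebraMap k X.F) :=
    RingHom.ext fun a => (h.alg a).symm.trans (h.dom.1 a).symm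
  have e2 : ∀ G : Fm X.N k, G.IsHomogeneous d → (sb c.pp G).eval₂ (toE _ F') θ =
      u' ^ d * γ (MvPolynomial.aeval X.g G) := fun G hG => by
    rw [← fld_hom (toE (MP (Option σ) k) F'), ← ev_def, ev_sb, MvPolynomial.aeval_def,
      MvPolynomial.eval₂_comp_left, ← e0, ← bas_hom hG]
    exact congrArg (fun y => MvPolynomial.eval₂ _ y G) (funext e')
  refine ⟨sb c.pp G, sb c.pp H, ?_, ?_, ?_⟩
  · rw [e1 H h2]
    exact mul_ne_zero (pow_ne_zero _ hu) h3
  · rw [e2 G h1, e2 H h2, ← h4, map_mul]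
    ring
  · rw [e1 G h1, e1 H h2, ← h5]
    ring

/-- the Galois covering of the local ring -/
theorem exists_cov (h : X.Fld c F' θ γ) (hG : c.GI) {n : ℕ} (hD : c.D ∣ Θ ^ n) {E : Type} [Field E]
    [Algebra (RF (Option σ) k) E] [Algebra F' E] [IsScalarTower (RF (Option σ) k) F' E]
    [FiniteDimensional (RF (Option σ) k) E] [IsGalois (RF (Option σ) k) E]
    (hU : UnrOff (RF (Option σ) k) (toE (MP (Option σ) k) E) Θ) (hx : X.On x)
    (ho : c.Off Θ (algebraMap k M) x) :
    ∃ (A : Subring E) (hA : Stab (⊤ : Subgroup (E ≃ₐ[F'] E)) A) (M' : Type) (_ : Field M')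
      (_ : Algebra M M') (_ : FiniteDimensional M M') (_ : IsGalois M M') (ρ : A →+* M'),
      (∀ z, (toE (MP (Option σ) k) E).IsIntegralElem z → z ∈ A) ∧
      (∀ f, algebraMap F' E (γ f) ∈ A ↔ ∃ m, X.Reg x f m) ∧
      (∀ f m (y : A), (y : E) = algebraMap F' E (γ f) → X.Reg x f m → ρ y = algebraMap M M' m) ∧
      ∀ g : E ≃ₐ[F'] E, (∀ y, ρ (hA.act (Subgroup.mem_top g) y) = ρ y) → g = 1 := by
  obtain ⟨h0, hD0, -⟩ := ho.coord ((Var.zer_IKL (algebraMap k M) (fun _ => rfl) x).2 hx.2) hD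
  set ξ := c.xi (algebraMap k M) x with hξ
  set v := ev (algebraMap k M) ξ (c.tht (algebraMap k M) x) with hv
  have eF : (algebraMap F' E).comp (toE (MP (Option σ) k) F') = toE (MP (Option σ) k) E :=
    RingHom.ext fun p => (IsScalarTower.algebraMap_apply (RF (Option σ) k) F' E _).symm
  let e : (MP (Option σ) k)[X] →+* E :=
    (algebraMap F' E).comp (Polynomial.eval₂RingHom (toE _ F') θ)
  have he : ∀ p, e p = p.eval₂ (toE _ E) (algebraMap F' E θ) := fun p => by
    rw [← eF, ← Polynomial.hom_eval₂]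
    rfl
  have hθ : c.χ.eval₂ (toE (MP (Option σ) k) E) (algebraMap F' E θ) = 0 := by
    rw [← eF, ← Polynomial.hom_eval₂, h.ff.1, map_zero]
  obtain ⟨M', _, _, _, _, J₀, r, hJ0, H⟩ := zneF hU (a := ξ) ho.2 c.monic (PChart.GI.irr hG) hθ h0
  obtain ⟨J, h1, h2, -⟩ := H _ (tay (algebraMap k M) ξ) (fun u => MvPolynomial.eval₂Hom_C _ _ u)
    (tay_inj _ _) fun i => by rw [tay_cc, MvPolynomial.eval₂_X]
  have : IsDomain (MvPowerSeries (Option σ) M') := NoZeroDivisors.to_isDomain _
  have hi := IsFractionRing.injective (MvPowerSeries (Option σ) M')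
    (Fr (MvPowerSeries (Option σ) M'))
  let : Algebra (MP (Option σ) k) E := (toE (MP (Option σ) k) E).toAlgebra
  have hθi : IsIntegral (MP (Option σ) k) (algebraMap F' E θ) := ⟨c.χ, c.monic, hθ⟩
  have hei : ∀ p, IsIntegral (MP (Option σ) k) (e p) := fun p => by
    rw [he]
    exact IsIntegral.of_mem_of_fg _ hθi.fg_adjoin_singleton _
      (Polynomial.aeval_mem_adjoin_singleton _ _)
  obtain ⟨η, hη, hη0⟩ := h2 _ hθi
  have hJe : ∀ p, ∃ y, J (e p) = algebraMap _ _ y ∧
      MvPowerSeries.constantCoeff y = algebraMap M M' (v p) := fun p => by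
    refine ⟨p.eval₂ ((MvPowerSeries.map (algebraMap M M')).comp (tay (algebraMap k M) ξ)) η, ?_, ?_⟩
    · rw [he, Polynomial.hom_eval₂, Polynomial.hom_eval₂, hη]
      exact congrArg (fun φ => p.eval₂ φ _) (RingHom.ext h1)
    · rw [hv, ev_def, Polynomial.hom_eval₂, Polynomial.hom_eval₂, hη0, hJ0]
      exact congrArg (fun φ => p.eval₂ φ _) (RingHom.ext fun q =>
        (MvPowerSeries.constantCoeff_map _ _).trans (congrArg _ (tay_cc _ _ _)))
  let A : Subring E :=
    { carrier := {z | ∃ q, v q ≠ 0 ∧ IsIntegral (MP (Option σ) k) (e q * z)}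
      one_mem' := ⟨1, by simp, by simpa using isIntegral_one⟩
      zero_mem' := ⟨1, by simp, by simpa using isIntegral_zero⟩
      mul_mem' := by
        rintro a b ⟨q, h1, h2⟩ ⟨q', h3, h4⟩
        exact ⟨q * q', by rw [map_mul]; exact mul_ne_zero h1 h3, by
          rw [map_mul, mul_mul_mul_comm]; exact h2.mul h4⟩
      add_mem' := by
        rintro a b ⟨q, h1, h2⟩ ⟨q', h3, h4⟩
        refine ⟨q * q', by rw [map_mul]; exact mul_ne_zero h1 h3, ?_⟩
        rw [show e (q * q') * (a + b) = e q' * (e q * a) + e q * (e q' * b) by rw [map_mul]; ring]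
        exact ((hei q').mul h2).add ((hei q).mul h4)
      neg_mem' := by
        rintro a ⟨q, h1, h2⟩
        exact ⟨q, h1, by rw [mul_neg]; exact h2.neg⟩ }
  have hA : Stab (⊤ : Subgroup (E ≃ₐ[F'] E)) A := by
    rintro g - z ⟨q, h1, p, hp, h2⟩
    refine ⟨q, h1, p, hp, ?_⟩
    have e1 : (g : E →+* E).comp (algebraMap (MP (Option σ) k) E) = algebraMap _ E := by
      change (g : E →+* E).comp (toE _ E) = toE _ E
      rw [← eF]
      exact RingHom.ext fun a => g.commutes _
    have := congrArg (g : E →+* E) h2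
    rwa [Polynomial.hom_eval₂, e1, map_zero, map_mul, show (g : E →+* E) (e q) = e q from
      g.commutes _] at this
  have hs : ∀ z : A, ∃ y, algebraMap (MvPowerSeries (Option σ) M') _ y = J z := by
    rintro ⟨z, q, h3, h4⟩
    obtain ⟨y, hy, -⟩ := h2 _ h4
    obtain ⟨u, hu, hu0⟩ := hJe q
    obtain ⟨u', hu'⟩ := (MvPowerSeries.isUnit_iff_constantCoeff.2
      (hu0 ▸ ((map_ne_zero (algebraMap M M')).2 h3).isUnit : IsUnit _)).exists_left_inv
    refine ⟨u' * y, ?_⟩
    rw [map_mul, ← hy, map_mul, hu, ← mul_assoc, ← map_mul, hu', map_one, one_mul]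
  choose b hb using hs
  let β : A →+* MvPowerSeries (Option σ) M' :=
    { toFun := b
      map_one' := hi (by rw [hb, map_one, OneMemClass.coe_one, map_one])
      map_mul' := fun y z => hi (by rw [map_mul, hb, hb, hb, MulMemClass.coe_mul, map_mul])
      map_zero' := hi (by rw [hb, map_zero, ZeroMemClass.coe_zero, map_zero])
      map_add' := fun y z => hi (by rw [map_add, hb, hb, hb, AddMemClass.coe_add, map_add]) }
  have hint : ∀ z, IsIntegral (MP (Option σ) k) z → z ∈ A := fun z hz =>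
    ⟨1, by simp, by simpa using hz⟩
  have hβ : ∀ p, MvPowerSeries.constantCoeff (β ⟨e p, hint _ (hei p)⟩) = algebraMap M M' (v p) :=
    fun p => by
      obtain ⟨y, hy, hy0⟩ := hJe p
      rw [← hy0]
      exact congrArg _ (hi ((hb _).trans hy))
  refine ⟨A, hA, M', inferInstance, inferInstance, inferInstance, inferInstance,
    MvPowerSeries.constantCoeff.comp β, hint, fun f => ⟨?_, ?_⟩, fun f m y hy hf => ?_,
    fun g hg => ?_⟩
  · rintro ⟨q, h3, p, hp, h4⟩
    have := h.ff.fin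
    have := Algebra.isSeparable_tower_bot_of_isSeparable (RF (Option σ) k) F' E
    obtain ⟨s, hs⟩ := cov_euler c.monic (PChart.GI.irr hG) h.ff.1 (fld_adj h.ff)
      (z := q.eval₂ (toE _ F') θ * γ f) ⟨p, hp, (algebraMap F' E).injective (by
        rw [Polynomial.hom_eval₂, eF, map_zero, map_mul]
        exact h4)⟩
    obtain ⟨a, a', ha⟩ := c.bez
    obtain ⟨f₁, e1, r1⟩ := lreg_poly h ho.1 (a' * s)
    obtain ⟨f₂, e2, r2⟩ := lreg_poly h ho.1 (Polynomial.C c.D * q)
    have e3 : f * f₂ = f₁ := γ.injective (by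
      rw [map_mul, e1, e2, ha, Polynomial.eval₂_mul, Polynomial.eval₂_mul, Polynomial.eval₂_add,
        Polynomial.eval₂_mul, Polynomial.eval₂_mul, h.ff.1, ← hs]
      ring)
    exact ⟨_, lreg_div (e3 ▸ r1) r2 (by rw [map_mul, ev_C]; exact mul_ne_zero hD0 h3)⟩
  · rintro ⟨m, hf⟩
    obtain ⟨p, q, h3, h4, -⟩ := lreg_frac h hD hx ho hf
    refine ⟨q, h3, ?_⟩
    rw [show e q * algebraMap F' E (γ f) = e p from (map_mul (algebraMap F' E) _ _).symm.trans (congrArg _ h4)]
    exact hei p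
  · obtain ⟨p, q, h3, h4, h5⟩ := lreg_frac h hD hx ho hf
    have e1 : (⟨e q, hint _ (hei q)⟩ : A) * y = ⟨e p, hint _ (hei p)⟩ := Subtype.ext (by
      rw [MulMemClass.coe_mul, hy]
      exact (map_mul (algebraMap F' E) _ _).symm.trans (congrArg _ h4))
    have e2 := congrArg (fun z => MvPowerSeries.constantCoeff (β z)) e1
    simp only [map_mul, hβ] at e2
    rw [← h5, map_mul, mul_comm] at e2
    exact mul_right_cancel₀ ((map_ne_zero (algebraMap M M')).2 h3) e2
  · have hα := isFr_alg (MP (Option σ) k) (RF (Option σ) k)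
    have hle : IntOff (toE (MP (Option σ) k) E) Θ ≤ A := fun z hz => by
      obtain ⟨s, hs⟩ := exists_pow_mul_mem hα hz
      refine ⟨Polynomial.C (Θ ^ s), ?_, ?_⟩
      · rw [hv, ev_C, MvPolynomial.eval₂_pow]
        exact pow_ne_zero _ ho.2
      · rw [he, Polynomial.eval₂_C, map_pow]
        exact (mem_intOff_one hα).1 hs
    have e1 : (β.comp (Subring.inclusion hle)).comp (toInt _ Θ) =
        pt ((algebraMap M M').comp (algebraMap k M)) fun i => algebraMap M M' (ξ i) :=
      RingHom.ext fun p => hi ((hb _).trans ((h1 p).trans (congrArg _ (map_pt _ _))))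
    have e2 := flat_sep hα hU (β.comp (Subring.inclusion hle))
      (by rw [e1]; exact flat_pt (flat_field _)) (by rw [e1]; exact pt_inj (RingHom.injective _))
      MvPowerSeries.constantCoeff (g := g.restrictScalars _) (h := 1) fun z => hg ⟨z, hle z.2⟩
    exact AlgEquiv.ext fun z => DFunLike.congr_fun e2 z

end Pool.Agent.ZFy
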