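import Pool.Agent.Lib.MP_751085_ag.ZF.E.U2

/-! A Galois extension with trivial inertia at a point gives a covering of the local ring. -/

namespace Pool.Agent.ZCy.F

open scoped Classical
open groupCohomology

theorem lf_gal {F E M G : Type} [Field F] [Field E] [Field M] [Algebra F E] [Group G] [Finite G]
    [MulSemiringAction G E] [hG : IsGaloisGroup G F E] (R : Subring F) (A : Subring E)
    (hA : ∀ g : G, ∀ y ∈ A, g • y ∈ A) (hR : ∀ f, algebraMap F E f ∈ A ↔ f ∈ R) (ρ : A →+* M)
    (hloc : ∀ (f : R) (y : A), (y : E) = algebraMap F E f → ρ y ≠ 0 → IsUnit f)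
    (hρ : ∀ g : G, (∀ y y' : A, (y' : E) = g • (y : E) → ρ y' = ρ y) → g = 1)
    {c : G × G → Eˣ} (hc : IsMulCocycle₂ c)
    (hu : ∀ p, (c p : E) ∈ A ∧ (((c p)⁻¹ : Eˣ) : E) ∈ A) : cls F c ∈ Loc R := by
  have := Fintype.ofFinite G
  let act : MulSemiringAction G A :=
    { smul := fun g y => ⟨g • y, hA g y y.2⟩
      one_smul := fun _ => Subtype.ext (one_smul _ _)
      mul_smul := fun _ _ _ => Subtype.ext (mul_smul _ _ _)
      smul_zero := fun _ => Subtype.ext (smul_zero _)
      smul_add := fun _ _ _ => Subtype.ext (smul_add _ _ _)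
      smul_one := fun _ => Subtype.ext (smul_one _)
      smul_mul := fun _ _ _ => Subtype.ext (smul_mul' _ _ _) }
  let i : R →+* A := ((algebraMap F E).comp R.subtype).codRestrict A fun f => (hR f).2 f.2
  have hi : ∀ y, y ∈ i.range ↔ ∀ g : G, g • y = y := fun y =>
    ⟨by rintro ⟨f, rfl⟩ g; exact Subtype.ext (smul_algebraMap g (f : F)), fun h => by
      obtain ⟨f, hf⟩ := hG.isInvariant.isInvariant (y : E) fun g => congrArg Subtype.val (h g)
      exact ⟨⟨f, (hR f).1 (hf ▸ y.2)⟩, Subtype.ext hf⟩⟩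
  let U : UC R :=
    { G := G, A := A, i := i, inv := hi
      inj := fun a b h => Subtype.ext ((algebraMap F E).injective (congrArg Subtype.val h))
      crd := crd_of_point i hi ρ (fun o => hloc o _ rfl) fun g h => hρ g fun y y' e => by
        rw [show y' = g • y from Subtype.ext e, h]
      c := fun p => ⟨⟨_, (hu p).1⟩, ⟨_, (hu p).2⟩, Subtype.ext (c p).mul_inv,
        Subtype.ext (c p).inv_mul⟩
      coc := fun a b d => Units.ext (Subtype.ext (congrArg Units.val (hc a b d))) }
  have h : U.At R.subtype A.subtype (id : G → G) := ⟨fun _ => rfl, fun _ _ => rfl⟩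
  exact AddSubgroup.subset_closure ⟨U, h.val_cls.trans (congrArg _ (funext fun _ => Units.ext rfl))⟩

end Pool.Agent.ZCy.F
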