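import Pool.Agent.Lib.MP_751085_ag.ZF.L.Cov
import Pool.Agent.Lib.MP_751085_ag.ZF.L.HK
import Pool.Agent.Lib.MP_751085_ag.ZF.L.Gal
import Pool.Agent.Lib.MP_751085_ag.ZF.L.Rep
import Pool.Agent.Lib.MP_751085_ag.ZF.R8

/-! The lifted class lies in the Brauer group. -/

namespace Pool.Agent.ZCy.F

open Pool.Agent.ZFy
open scoped Classical WithZero Polynomial
open groupCohomology

set_option linter.unusedSectionVars false

/-- charts have good models where the fibre curves are smooth -/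
def GMF : Prop := ∀ (k σ : Type) [Field k] [Fintype σ] (N : ℕ) (GG : Set (Fm N k))
  (c : Chart k σ N GG) (Φ : MP σ k), (∀ G ∈ GG, ∃ m, G.IsHomogeneous m) → c.SM Φ →
    GoodM c.toPChart Φ

theorem lf_prim {A B : Type} [Field A] [Field B] (f : A →+* B) {l : ℕ} {a : BR A}
    (h : Prim l a) : Prim l (rs f a) :=
  ⟨h.choose, (map_nsmul (rs f) _ a).symm.trans ((congrArg _ h.choose_spec).trans (map_zero _))⟩

theorem lf_over {A F E : Type} [CommRing A] [Field F] [Field E] {φ : A →+* F} {j : F →+* E}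
    {v : Vl F} {W : Vl E} {P : A} (h : Over j v W) (hc : Cen φ v P) : Cen (j.comp φ) W P :=
  have e : (W.comap j).IsEquiv v := Valuation.isEquiv_iff_val_le_one.2 fun {x} => h x
  ⟨fun a => (h _).2 (hc.1 a), fun a => (e.lt_one_iff_lt_one (x := φ a)).trans (hc.2 a)⟩

theorem lf_muc {K ι : Type} [Field K] {Θ : MP ι K} {F : Type} [Field F]
    [Algebra (RF ι K) F] (R : MuC Θ F) {W : Vl R.E} (hm : W (R.m : R.E) = 1)
    (hI : Ine (RF ι K) W = ⊥) {v : Vl F} (hv : Over (algebraMap F R.E) v W) :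
    Unram v (cls F R.c) := by
  have := Module.Finite.of_restrictScalars_finite (RF ι K) F R.E
  have := IsGalois.tower_top_of_isGalois (RF ι K) F R.E
  have h1 : ∀ g ∈ Ine F W, g = 1 := fun g hg => AlgEquiv.ext fun x => DFunLike.congr_fun
    ((Subgroup.eq_bot_iff_forall _).1 hI (g.restrictScalars (RF ι K)) ⟨hg.1, hg.2⟩) x
  refine unram_of_norm hv R.coc hm R.pow (e := fun _ => R.c (1, 1)) (fun _ => R.pow _)
    (fun g hg h hh => ?_) fun g _ n hn n' hn' _ => ?_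
  · simp [h1 g hg, h1 h hh, dd]
  · rw [h1 n hn, h1 n' hn', map_one_fst_of_isMulCocycle₂ R.coc g,
      map_one_snd_of_isMulCocycle₂ R.coc g, div_self', div_self']

variable {k : Type} [Field k] {X : Var k} {n : ℕ} {σ : Type} [Fintype σ]
  {c : Chart k σ X.N (X.IK k)} {F' : Type} [Field F'] [Algebra (RF (Option σ) k) F'] [Algebra k F']
  {θ : F'} {γ : X.F →+* F'} {Θ : MP (Option σ) k} {b : BR X.F}

theorem lf_hom : ∀ G ∈ X.IK k, ∃ m, G.IsHomogeneous m := by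
  rintro _ ⟨G, ⟨⟨m, hm⟩, -⟩, rfl⟩
  exact ⟨m, hm.map _⟩

theorem lf_fac (h : X.Fld c F' θ γ) {L : Type} [Field L] (γ₀ : X.F →+* L) :
    ∃ ι : F' →+* L, ι.comp γ = γ₀ :=
  ⟨γ₀.comp (RingEquiv.ofBijective γ h.bij).symm.toRingHom, RingHom.ext fun x =>
    congrArg γ₀ ((RingEquiv.ofBijective γ h.bij).symm_apply_apply x)⟩

theorem lf_lr {M : Type} [Field M] [Algebra k M] {x : Fin (X.N + 1) → M} {f : X.F} :
    f ∈ X.LR x ↔ ∃ m, X.Reg x f m := by
  refine ⟨fun h => ?_, fun h => Subring.subset_closure h⟩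
  induction h using Subring.closure_induction with
  | mem f hf => exact hf
  | zero => exact ⟨_, by simpa using lreg_const (X := X) (x := x) 0⟩
  | one => exact ⟨_, by simpa using lreg_const (X := X) (x := x) 1⟩
  | add f g _ _ hf hg => exact ⟨_, lreg_add hf.choose_spec hg.choose_spec⟩
  | neg f _ hf => exact ⟨_, by simpa using lreg_mul (lreg_const (-1)) hf.choose_spec⟩
  | mul f g _ _ hf hg => exact ⟨_, lreg_mul hf.choose_spec hg.choose_spec⟩

/-- a class with a cocycle in roots of unity comes from the local rings at the points off `Θ` -/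
theorem lf_loc (h : X.Fld c F' θ γ) (hG : c.GI) {r : ℕ} (hD : c.D ∣ Θ ^ r) (R : MuC Θ F')
    (hb : cls F' R.c = rs γ b) {M : Type} [Field M] [Algebra k M] {x : Fin (X.N + 1) → M}
    (hx : X.On x) (ho : c.Off Θ (algebraMap k M) x) : b ∈ Loc (X.LR x) := by
  obtain ⟨A, hA, M', _, _, _, _, ρ, h1, h2, h3, h4⟩ := exists_cov h hG hD R.unr hx ho
  have := Module.Finite.of_restrictScalars_finite (RF (Option σ) k) F' R.E
  have := IsGalois.tower_top_of_isGalois (RF (Option σ) k) F' R.E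
  let : Algebra X.F R.E := ((algebraMap F' R.E).comp γ).toAlgebra
  have : IsGaloisGroup (R.E ≃ₐ[F'] R.E) X.F R.E :=
    ⟨inferInstance, ⟨fun g a y => by
      rw [Algebra.smul_def, Algebra.smul_def, smul_mul']
      exact congrArg (· * _) (g.commutes (γ a))⟩, ⟨fun y hy => by
      obtain ⟨a, ha⟩ := mem_range_of_fix (K := F') hy
      obtain ⟨a', rfl⟩ := h.bij.2 a
      exact ⟨a', ha⟩⟩⟩
  have e : b = cls X.F R.c := res_injective_of_bijective h.bij (hb.symm.trans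
    (rs_cls γ (j := RingHom.id R.E) (r := id) (fun _ => rfl) (fun _ _ => rfl) R.coc).symm)
  have hr : ∀ u : R.Eˣ, u ^ R.m = 1 → (u : R.E) ∈ A := fun u hu =>
    h1 _ ⟨Polynomial.X ^ R.m - Polynomial.C 1, Polynomial.monic_X_pow_sub_C 1 R.m_ne, by
      simp [← Units.val_pow_eq_pow_val, hu]⟩
  rw [e]
  refine lf_gal _ A (fun g => hA g (Subgroup.mem_top g)) (fun f => (h2 f).trans lf_lr.symm)
    ρ (fun f y hy h0 => ?_) (fun g hg => h4 g fun y => hg y _ rfl) R.coc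
    fun p => ⟨hr _ (R.pow p), hr _ (by rw [inv_pow, R.pow, inv_one])⟩
  · obtain ⟨m, hm⟩ := lf_lr.1 f.2
    rw [h3 f m y hy hm, map_ne_zero] at h0
    have f0 : (f : X.F) ≠ 0 := fun u => h0 ((algebraMap M M').injective ((h3 f m y hy hm).symm.trans
      (by rw [show y = 0 from Subtype.ext (by rw [hy, u, map_zero]; rfl), map_zero, map_zero])))
    have h5 : X.Reg x ((f : X.F)⁻¹ * f) 1 := by
      rw [inv_mul_cancel₀ f0]
      simpa using lreg_const (X := X) (x := x) 1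
    exact IsUnit.of_mul_eq_one ⟨_, lf_lr.2 ⟨_, lreg_div h5 hm h0⟩⟩ (Subtype.ext (mul_inv_cancel₀ f0))

theorem lf_h1 (h : X.Fld c F' θ γ) (h0 : MvPolynomial.constantCoeff Θ ≠ 0) (R : MuC Θ F')
    (hb : cls F' R.c = rs γ b)
    (hV : ∀ (P : MP (Option σ) k) (W : Vl R.E) (v : Vl F'), Prime P → P ∣ flp Θ →
      Cen (flpHom (toE (MP (Option σ) k) R.E)) W P → Over (algebraMap F' R.E) v W →
        Unram v (cls F' R.c))
    {σ₂ : Type} [Fintype σ₂] {c₂ : Chart k σ₂ X.N (X.IK k)} {F₂ : Type} [Field F₂]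
    [Algebra (RF (Option σ₂) k) F₂] [Algebra k F₂] {θ₂ : F₂} {γ₂ : X.F →+* F₂}
    (h₂ : X.Fld c₂ F₂ θ₂ γ₂) (hc : Fintype.card σ = Fintype.card σ₂)
    (hO : ∀ (Ω : Type) [Field Ω] [Algebra k Ω] (x : Fin (X.N + 1) → Ω), X.On x →
      (∀ i, MvPolynomial.aeval x (c₂.f (skip i)) = 0) → c.Off Θ (algebraMap k Ω) x) :
    H1 k σ₂ F₂ (rs γ₂ b) := by
  have := Module.Finite.of_restrictScalars_finite (RF (Option σ) k) F' R.E
  obtain ⟨ι, hι⟩ := lf_fac h γ₂
  have e : (algebraMap F' R.E).comp (toE (MP (Option σ) k) F') = toE (MP (Option σ) k) R.E :=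
    RingHom.ext fun p => (IsScalarTower.algebraMap_apply _ _ _ _).symm
  rw [← hι, ← lf_comp, ← hb]
  refine ⟨fun P₂ v hP₂ hv => Unram.comap ι ?_, fun v h1 h2 => Unram.comap ι ?_⟩ <;>
    obtain ⟨W, hW⟩ := lv_exists (E := R.E) (v.comap ι)
  · rcases h.centre h₂ hc hι hP₂ hv with h1 | ⟨P, hP, h1⟩
    · have h2 := e ▸ lf_over (φ := toE (MP (Option σ) k) F') hW h1
      refine lf_muc R (nat_val h2.1 R.hm) (R.unr _ W MvPolynomial.X_prime (fun hd => h0 ?_) h2) hW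
      simpa using map_dvd MvPolynomial.constantCoeff hd
    · rw [lz_comp] at h1
      have h2 := lf_over (φ := flpHom (toE (MP (Option σ) k) F')) hW h1
      rw [← lz_comp, e] at h2
      by_cases hd : P ∣ flp Θ
      · exact hV P W _ hP hd h2 hW
      exact lf_muc R (nat_val h2.1 R.hm) (unrOff_flp (toE_inj R.E) R.unr P W hP hd h2) hW
  · obtain ⟨h3, h4⟩ := base_off h h₂ hι hO h1 h2
    have e' : (W.comap (algebraMap F' R.E)).IsEquiv (v.comap ι) :=
      Valuation.isEquiv_iff_val_le_one.2 fun {x} => hW x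
    have h5 : ∀ p, W (toE (MP (Option σ) k) R.E p) ≤ 1 := fun p => e ▸ (hW _).2 (h3 p)
    exact lf_muc R (nat_val h5 R.hm) (ine_off (isFr_alg _ _) R.unr h5
      ((congrArg W (DFunLike.congr_fun e Θ)).symm.trans
        ((e'.eq_one_iff_eq_one (x := toE _ F' Θ)).2 h4))) hW

theorem lf_brs {R ι : Type} [CommRing R] (c : PChart R ι) (Φ : MP ι R) :
    ∃ r : ℕ, c.D ∣ c.brs Φ ^ r := by
  obtain ⟨r, hr⟩ := c.dvd
  exact ⟨r, hr.trans (pow_dvd_pow_of_dvd (dvd_mul_right _ _) r)⟩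

theorem lf_mem [Infinite k] (hK : ThmKp) (hC : CHFp) (hN : N1p) (hM : GMF) (hX : X.Nice n)
    (hσ : Fintype.card σ + 1 = n) (h : X.Fld c F' θ γ) (hG : c.GI)
    (h0 : MvPolynomial.constantCoeff Θ ≠ 0) {r : ℕ} (hD : c.D ∣ Θ ^ r) (R : MuC Θ F')
    (hb : cls F' R.c = rs γ b) {l : ℕ} (hl : l.Prime) (hl0 : (l : k) ≠ 0) (hp : Prim l b)
    (hV : ∀ (P : MP (Option σ) k) (W : Vl R.E) (v : Vl F'), Prime P → P ∣ flp Θ →
      Cen (flpHom (toE (MP (Option σ) k) R.E)) W P → Over (algebraMap F' R.E) v W →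
        Unram v (cls F' R.c)) : b ∈ X.Bw := by
  simp only [Var.Bw, AddSubgroup.mem_iInf]
  rintro _ ⟨M, _, _, x, hx, rfl⟩
  obtain ⟨H, hH, hH', hO⟩ := h.exists_form (Θ := Θ) (by rintro rfl; simp at h0)
  obtain ⟨c₂, Φ₂, -, hS, -, hU, hi⟩ := hN k X n hX σ hσ M {x} (by simpa using hx) H hH hH' l
    hl.two_le hl0
  obtain ⟨hG₂, F₂, _, _, _, θ₂, γ₂, h₂⟩ := lf_fld hC hX c₂ hσ
  obtain ⟨R₂, hR₂, -⟩ := hK k σ c₂.toPChart Φ₂ F₂ θ₂ l hG₂ h₂.ff (hM k σ _ _ c₂ Φ₂ lf_hom hS) hl hl0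
    (rs γ₂ b) (lf_prim _ hp)
    (lf_h1 h h0 R hb hV h₂ rfl fun Ω _ _ x hx h' => hO Ω x (hi Ω x hx h'))
    (lf_h2 h₂ hG₂ fun M' _ i1 i2 i3 γ' x' hg' h' => by
      obtain rfl : i2 = i1 := Algebra.algebra_ext _ _ fun a =>
        @IsScalarTower.algebraMap_apply k k M' _ _ _ _ i1 i2 i3 a
      obtain ⟨β, hβ⟩ := lf_rep h hG hD R hg'.on (hO M' x' (hi M' x' hg'.on h'))
      obtain ⟨ι, hι⟩ := lf_fac h (γ'.comp γ₂)
      exact ⟨β, (lf_comp _ _ b).trans (((congrArg (fun f => rs f b) hι).symm.trans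
        ((lf_comp _ _ b).symm.trans (congrArg _ hb.symm))).trans (hβ _ ι (hι ▸ hg')))⟩)
  obtain ⟨r₂, hr₂⟩ := lf_brs c₂.toPChart Φ₂
  exact lf_loc h₂ hG₂ hr₂ R₂ hR₂ hx (hU x (Finset.mem_singleton_self x))

end Pool.Agent.ZCy.F
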