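import Pool.Agent.Lib.MP_751085_ag.ZC.V.HarB
import Pool.Agent.Lib.MP_751085_ag.ZF.C.Trans
import Pool.Agent.Lib.MP_751085_ag.ZF.K.Iface
import Pool.Agent.Lib.MP_751085_ag.ZF.L.Zl

/-! A cover after a linear change of coordinates. -/

namespace Pool.Agent.ZCy.F

open Pool.Agent.ZFy
open scoped Classical WithZero Polynomial

set_option linter.unusedSectionVars false

variable {k σ : Type} [Field k] [Fintype σ] {L L' : Matrix σ σ k} {T T' : Type} [Field T] [Field T']
  [Algebra (RF (Option σ) k) T] [Algebra (RF (Option σ) k) T']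

theorem lf_aff (h : MInv L L') (p : MP σ k) : aff 0 L' (aff 0 L p) = p := by
  rw [aff_aff, h, Matrix.mulVec_zero, add_zero, aff_one]

theorem lf_tw [FiniteDimensional (RF (Option σ) k) T] [IsGalois (RF (Option σ) k) T]
    (h : MInv L L') {Θ : MP (Option σ) k}
    (hU : UnrOff (RF (Option σ) k) (toE (MP (Option σ) k) T) Θ) :
    ∃ (T' : Type) (_ : Field T') (_ : Algebra (RF (Option σ) k) T')
      (_ : FiniteDimensional (RF (Option σ) k) T') (_ : IsGalois (RF (Option σ) k) T'),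
      Tw L T T' ∧ UnrOff (RF (Option σ) k) (toE (MP (Option σ) k) T') (aff 0 (extM L) Θ) := by
  have hβ := isFr_alg (MP (Option σ) k) (RF (Option σ) k)
  obtain ⟨ψ, hψ⟩ := zl_equiv hβ (hβ.comp_equiv h.eqv)
  have hU' : UnrOff (RF (Option σ) k) ((toE (MP (Option σ) k) T).comp
      (h.eqv : MP (Option σ) k →+* MP (Option σ) k)) (aff 0 (extM L) Θ) :=
    (unrOff_equiv h.eqv).2 ((h.aff Θ).symm ▸ hU :)
  let A := ‹Algebra (RF (Option σ) k) T›
  let A' : Algebra (RF (Option σ) k) T :=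
    ((algebraMap (RF (Option σ) k) T).comp (ψ : _ →+* RF (Option σ) k)).toAlgebra
  have hcm : (@algebraMap (RF (Option σ) k) T _ _ A').comp (ψ.symm : _ →+* RF (Option σ) k) =
      ((RingEquiv.refl T : T ≃+* T) : T →+* T).comp (@algebraMap _ T _ _ A) :=
    RingHom.ext fun a => congrArg (@algebraMap _ T _ _ A) (ψ.apply_symm_apply a)
  have e : @toE (MP (Option σ) k) T _ _ _ A' = (@toE (MP (Option σ) k) T _ _ _ A).comp
      (h.eqv : MP (Option σ) k →+* MP (Option σ) k) :=
    RingHom.ext fun p => congrArg (@algebraMap _ T _ _ A) (hψ p)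
  refine ⟨T, inferInstance, A', @Module.Finite.of_equiv_equiv _ _ _ _ _ _ _ _ A A' ψ.symm
    (RingEquiv.refl T) hcm _, @IsGalois.of_equiv_equiv _ _ _ _ A _ _ _ _ A' _ _ _ hcm,
    ⟨RingEquiv.refl T, fun p => ?_⟩, fun P w hP hd hw => ?_⟩
  · rw [e]
    exact congrArg (@toE (MP (Option σ) k) T _ _ _ A) (h.aff p).symm
  · refine (Subgroup.eq_bot_iff_forall _).2 fun g hg => AlgEquiv.ext fun x => ?_
    let s : @AlgEquiv (RF (Option σ) k) T T _ _ _ A A :=
      @AlgEquiv.ofRingEquiv _ _ _ _ _ _ A A g.toRingEquiv fun a => by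
        obtain ⟨b, rfl⟩ := ψ.surjective a
        exact g.commutes b
    exact DFunLike.congr_fun ((Subgroup.eq_bot_iff_forall _).1 (hU' P w hP hd (e ▸ hw)) s
      ⟨hg.1, hg.2⟩) x

variable {N : ℕ} {GG : Set (Fm N k)} {c c' : Chart k σ N GG}

theorem lf_spl (hc : c.IsLin c' L L') (hT : Tw L T T')
    (h : (c.χ.map (toE (MP (Option σ) k) T)).Splits) :
    (c'.χ.map (toE (MP (Option σ) k) T')).Splits := by
  obtain ⟨e, he⟩ := hT
  have := h.map (e : T →+* T')
  rw [Polynomial.map_map] at this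
  rw [hc.χ, Polynomial.map_map]
  exact (RingHom.ext he : (e : T →+* T').comp _ = (toE (MP (Option σ) k) T').comp
    (aff 0 (extM L) : MP (Option σ) k →+* MP (Option σ) k)) ▸ this

theorem lf_kz (hc : c.IsLin c' L L') (hT : Tw L T T') {l : ℕ} {Φ : MP σ k}
    (h : KZ l c.toPChart Φ T) : KZ l c'.toPChart (aff 0 L Φ) T' := by
  obtain ⟨e, he⟩ := hT
  obtain ⟨K, K₀, _, _, _, _, _, α, e₀, h1, h2, h3, h4⟩ := h
  have hL : MInv L L' := hc.inv
  let ε : MP σ k ≃+* MP σ k := RingEquiv.ofBijective (aff 0 L' : MP σ k →+* MP σ k)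
    ⟨Function.LeftInverse.injective (lf_aff hL.symm), Function.RightInverse.surjective (lf_aff hL)⟩
  refine ⟨K, K₀, _, _, _, ‹_›, ‹_›, α.comp (ε : MP σ k →+* MP σ k), (e : T →+* T').comp e₀,
    h1.comp_equiv ε, (unrOff_equiv ε).2 ((lf_aff hL Φ).symm ▸ h2 :), fun p => ?_, ?_⟩
  · refine (congrArg e (h3 (aff 0 L' p))).trans ((he _).trans (congrArg _ ?_))
    rw [aff_up]
    exact congrArg up (lf_aff hL.symm p)
  · have : (cχ c'.toPChart).map (Polynomial.mapRingHom (tE K₀ (α.comp (ε : MP σ k →+* MP σ k)))) =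
        (cχ c.toPChart).map (Polynomial.mapRingHom (tE K₀ α)) := by
      rw [cχ, cχ, hc.χ, Polynomial.map_map, Polynomial.map_map, Polynomial.map_map]
      refine congrArg (fun f => Polynomial.map f c.χ) (RingHom.ext fun p => ?_)
      change Polynomial.map _ (tp (aff 0 (extM L) p)) = Polynomial.map _ (tp p)
      rw [tp_aff, Pi.zero_apply, map_zero, map_zero, add_zero, Polynomial.comp_X, Polynomial.map_map]
      exact congrArg (fun f => Polynomial.map f (tp p))
        (RingHom.ext fun q => congrArg (tE K₀ α) (lf_aff hL q))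
    rwa [this]

theorem lf_res {T TH : Type} [Field T] [Field TH] [Algebra (RF (Option (Option σ)) k) T]
    [Algebra (RF (Option σ) k) TH] {w : Vl T} {ρ : w.integer →+* TH}
    (h : ResH (algebraMap (MP (Option (Option σ)) k) (RF (Option (Option σ)) k))
      (algebraMap (MP (Option σ) k) (RF (Option σ) k)) w ρ) :
    HRes (k := k) (σ := σ) w ρ (RingHom.id TH) := by
  choose h1 h2 using h.2
  refine ⟨⟨h1, fun p => (h.1 ⟨_, h1 p⟩).symm.trans ?_⟩, h.1, fun p y hy => ?_⟩
  · rw [h2, map_eq_zero_iff _ ((algebraMap (RF (Option σ) k) TH).injective.comp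
      (IsFractionRing.injective (MP (Option σ) k) _) :), hyp_eq_zero]
  · rw [show y = ⟨_, h1 p⟩ from Subtype.ext hy]
    exact h2 p

end Pool.Agent.ZCy.F
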