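import Pool.Agent.Lib.MP_751085_ag.ZF.L.Lift
import Pool.Agent.Lib.MP_751085_ag.ZF.R8
import Pool.Agent.Lib.MP_751085_ag.ZF.L.Rich

/-! The lifted class is unramified along the branch locus. -/

namespace Pool.Agent.ZCy.F

open Pool.Agent.ZFy
open scoped Classical WithZero Polynomial
open groupCohomology

set_option linter.unusedSectionVars false

section aux

variable {E E' Ω : Type} [Field E] [Field E'] [Field Ω]

/-- the root of unity `u` reduces to `z` -/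
def VRl (w : Vl E) (ρ : w.integer →+* Ω) (j : E' →+* Ω) (m : ℕ) (u : Eˣ) (z : E'ˣ) : Prop :=
  u ^ m = 1 ∧ ∃ y : w.integer, (y : E) = u ∧ ρ y = j z

variable {w : Vl E} {ρ : w.integer →+* Ω} {j : E' →+* Ω} {m : ℕ}

theorem VRl.mul {u u' : Eˣ} {z z' : E'ˣ} (h : VRl w ρ j m u z) (h' : VRl w ρ j m u' z') :
    VRl w ρ j m (u * u') (z * z') := by
  obtain ⟨h1, y, hy, e⟩ := h
  obtain ⟨h1', y', hy', e'⟩ := h'
  refine ⟨by rw [mul_pow, h1, h1', mul_one], y * y', ?_, ?_⟩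
  · rw [Units.val_mul, ← hy, ← hy']
    rfl
  · rw [map_mul, e, e', Units.val_mul, map_mul]

theorem VRl.inv (hm : m ≠ 0) {u : Eˣ} {z : E'ˣ} (h : VRl w ρ j m u z) :
    VRl w ρ j m u⁻¹ z⁻¹ := by
  obtain ⟨h1, y, hy, e⟩ := h
  have h2 : u⁻¹ ^ m = 1 := by rw [inv_pow, h1, inv_one]
  have h3 : ((u⁻¹ : Eˣ) : E) ^ m = 1 := by rw [← Units.val_pow_eq_pow_val, h2, Units.val_one]
  refine ⟨h2, ⟨(u⁻¹ : Eˣ), (root_val hm h3).le⟩, rfl, ?_⟩
  have h4 : (⟨(u⁻¹ : Eˣ), (root_val hm h3).le⟩ : w.integer) * y = 1 := Subtype.ext (by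
    change ((u⁻¹ : Eˣ) : E) * (y : E) = 1
    rw [hy, Units.inv_mul])
  have h5 := congrArg ρ h4
  rw [map_mul, map_one, e] at h5
  rw [Units.val_inv_eq_inv_val z, map_inv₀]
  exact eq_inv_of_mul_eq_one_left h5

theorem VRl.div (hm : m ≠ 0) {u u' : Eˣ} {z z' : E'ˣ} (h : VRl w ρ j m u z)
    (h' : VRl w ρ j m u' z') : VRl w ρ j m (u / u') (z / z') := by
  rw [div_eq_mul_inv, div_eq_mul_inv]
  exact h.mul (h'.inv hm)

theorem VRl.uniq (hρ : IsRed w ρ) (hm : w (m : E) = 1) {u u' : Eˣ} {z : E'ˣ}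
    (h : VRl w ρ j m u z) (h' : VRl w ρ j m u' z) : u = u' := by
  obtain ⟨h1, y, hy, e⟩ := h
  obtain ⟨h1', y', hy', e'⟩ := h'
  have := hρ.root_inj hm (y := y) (y' := y')
    (by rw [hy, ← Units.val_pow_eq_pow_val, h1, Units.val_one])
    (by rw [hy', ← Units.val_pow_eq_pow_val, h1', Units.val_one]) (e.trans e'.symm)
  exact Units.ext (by rw [← hy, ← hy', this])

end aux

variable {k σ : Type} [Field k] [Fintype σ] {F' : Type} [Field F']
  [Algebra (RF (Option (Option σ)) k) F'] {FY : Type} [Field FY] [Algebra (RF (Option σ) k) FY]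
  {θ : F'} {θY : FY} {Θ : MP (Option (Option σ)) k}

theorem lf_vert {R' : MuC (hyp Θ) FY} {R : MuC Θ F'} (T : LiftF θ θY R' R) {l : ℕ}
    (hl : (l : k) ≠ 0) (hR : R'.Rich l)
    (hY : ∀ v : Vl FY, Triv ((toE (MP (Option σ) k) FY).comp MvPolynomial.C) v →
      Unram v (cls FY R'.c))
    {P : MP (Option (Option σ)) k} (hP : Prime P) (hd : P ∣ flp Θ) {W : Vl R.E}
    (hW : Cen (flpHom (toE (MP (Option (Option σ)) k) R.E)) W P) {v : Vl F'}
    (hv : Over (algebraMap F' R.E) v W) : Unram v (cls F' R.c) := by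
  have : FiniteDimensional F' R.E := FiniteDimensional.right (RF (Option (Option σ)) k) F' R.E
  have : IsGalois F' R.E := IsGalois.tower_top_of_isGalois (RF (Option (Option σ)) k) F' R.E
  have : FiniteDimensional FY R'.E := FiniteDimensional.right (RF (Option σ) k) FY R'.E
  have : IsGalois FY R'.E := IsGalois.tower_top_of_isGalois (RF (Option σ) k) FY R'.E
  have hm0 : R'.m ≠ 0 := R'.m_ne
  obtain ⟨Ω₂, _, ρ₂, V, hρ₂, hC, hD, hI⟩ := T.dl P W hP hd hW
  obtain ⟨j', hj'⟩ := T.red.transfer hρ₂ T.rng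
  have hlift : ∀ z : R'.E, ∃ y : T.w.integer, T.ρ y = T.j z := fun z => T.rng ⟨z, rfl⟩
  have hA : ∀ g ∈ Dec F' W, T.π g ∈ Dec FY (V.comap j') := fun g hg z => by
    obtain ⟨y, hy⟩ := hlift z
    obtain ⟨y', e1, e2⟩ := T.eqv g y z hy
    change V (j' (T.π g z)) = V (j' z)
    rw [← hj' y z hy, ← hj' y' _ e2]
    exact hD (g.restrictScalars _) hg y y' e1
  have hB : ∀ n ∈ Ine F' W, T.π n ∈ Ine FY (V.comap j') := fun n hn => ⟨hA n hn.1, fun z hz => by
    obtain ⟨y, hy⟩ := hlift z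
    obtain ⟨y', e1, e2⟩ := T.eqv n y z hy
    change V (j' (T.π n z - z)) < 1
    change V (j' z) ≤ 1 at hz
    rw [← hj' y z hy] at hz
    rw [map_sub, ← hj' y z hy, ← hj' y' _ e2]
    exact hI (n.restrictScalars _) hn y y' e1 hz⟩
  have hk : ∀ a : k, a ≠ 0 →
      V (j' (toE (MP (Option σ) k) R'.E (MvPolynomial.C a))) = 1 := fun a ha => by
    have e := T.base (MvPolynomial.C a) ⟨_, T.cen.1 (MvPolynomial.C a)⟩ rfl
    have e2 : hyp (MvPolynomial.C a : MP (Option (Option σ)) k) = MvPolynomial.C a :=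
      MvPolynomial.eval₂Hom_C _ _ _
    rw [e2] at e
    rw [← hj' _ _ e]
    exact hC a _ ha rfl
  have h0 : ∀ n : ℕ, (n : k) ≠ 0 → V.comap j' (n : R'.E) = 1 := fun n hn => by
    have := hk n hn
    rwa [map_natCast, map_natCast] at this
  have hu : Unram ((V.comap j').comap (algebraMap FY R'.E)) (cls FY R'.c) := by
    refine hY _ fun a ha => ?_
    change V (j' (algebraMap FY R'.E (algebraMap (RF (Option σ) k) FY _))) = 1
    rw [← IsScalarTower.algebraMap_apply]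
    exact hk a ha
  have hwm : T.w (R'.m : R.E) = 1 := nat_val T.cen.1 R'.hm
  obtain ⟨e', he1, he2⟩ := hR (V.comap j') (h0 l hl)
  have hex : ∀ g : R.E ≃ₐ[F'] R.E, ∃ u : R.Eˣ, VRl T.w T.ρ T.j R'.m u (e' (T.π g)) := fun g => by
    obtain ⟨y, hy, e⟩ := T.root (e' (T.π g))
      (by rw [← Units.val_pow_eq_pow_val, he1, Units.val_one])
    have hy0 : (y : R.E) ≠ 0 := fun h => by
      rw [h, zero_pow hm0] at hy
      exact zero_ne_one hy
    exact ⟨Units.mk0 y hy0, Units.ext (by rw [Units.val_pow_eq_pow_val]; exact hy), y, rfl, e⟩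
  choose e he using hex
  have hpow : ∀ p, R.c p ^ R'.m = 1 := fun p => T.m_eq ▸ R.pow p
  have hc : ∀ g h, VRl T.w T.ρ T.j R'.m (R.c (g, h)) (R'.c (T.π g, T.π h)) := fun g h =>
    ⟨hpow _, T.coc (g, h)⟩
  have hs : ∀ (g : R.E ≃ₐ[F'] R.E) {u z}, VRl T.w T.ρ T.j R'.m u z →
      VRl T.w T.ρ T.j R'.m (g • u) (T.π g • z) := by
    rintro g u z ⟨h1, y, hy, e⟩
    obtain ⟨y', e1, e2⟩ := T.eqv g y z e
    exact ⟨by rw [← smul_pow', h1, smul_one], y', by rw [e1, hy]; rfl, e2⟩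
  refine unram_of_norm hv R.coc (nat_val hW.1 R'.hm) hpow (e := e) (fun g => (he g).1)
    (fun g hg h hh => ?_) fun g hg n hn n' hn' hgn => ?_
  · refine (hc g h).uniq T.red hwm ?_
    rw [he2 _ (hB g hg) _ (hB h hh)]
    have := ((hs g (he h)).div hm0 (he (g * h))).mul (he g)
    rw [map_mul] at this
    exact this
  · refine ((hc g n').div hm0 (hs g (he n'))).uniq T.red hwm ?_
    rw [Unram.norm (v := (V.comap j').comap (algebraMap FY R'.E)) (w := V.comap j')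
      (fun _ => Iff.rfl) R'.coc (h0 _ R'.hm) R'.pow hu le_rfl he1 he2 (hA g hg) (hB n hn)
      (hB n' hn') (by rw [← map_mul, hgn, map_mul])]
    exact (hc n g).div hm0 (he n)

end Pool.Agent.ZCy.F
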