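import Pool.Agent.Lib.MP_751085_ag.ZF.L.Iface
import Pool.Agent.Lib.MP_751085_ag.ZF.L.Mem
import Pool.Agent.Lib.MP_751085_ag.ZF.L.Tw
import Pool.Agent.Lib.MP_751085_ag.ZF.L.Vert

/-! The Lefschetz property for the primes different from the characteristic. -/

namespace Pool.Agent.ZCy.F

open Pool.Agent.ZFy
open scoped Classical WithZero Polynomial
open groupCohomology

set_option linter.unusedSectionVars false

variable {k : Type} [Field k] {X : Var k} {Y : Gen k X.N}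

theorem lf_match (hX : EvApi X) (hY : EvApi Y.var) {f : Fm X.N k} (hS : X.Sec Y f)
    {a : BR Y.F} (ha : a ∈ Y.var.Bw) {b : BR X.F} (hb : b ∈ X.Bw)
    (h : X.vl b Y.F Y.g = a) : X.Mt Y a b := by
  refine ⟨ha, hb, fun M _ _ x hx => ?_⟩
  obtain ⟨r, γ, hγ⟩ := hY.germ M x hx
  have hg : Y.var.GermT γ x := hγ
  obtain ⟨y, h1, h2, h3, u, hu, h4⟩ := hg.dom
  have e1 := hY.spec a ha M (Fin r) γ x hg
  have hx1 : (fun i => MvPowerSeries.constantCoeff (y i)) = x := funext h1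
  have hon : Y.var.On fun i => algebraMap (MvPowerSeries (Fin r) M)
    (Fr (MvPowerSeries (Fin r) M)) (y i) := Var.Dom.on ⟨h3, u, hu, h4⟩
  have e2 := hX.arcT b hb M (Fin r) y (hx1 ▸ hx.1) fun G hG => by
    apply IsFractionRing.injective (MvPowerSeries (Fin r) M) (Fr (MvPowerSeries (Fin r) M))
    rw [map_zero, ← ((hS _ _).1 hon).1.2 G hG]
    exact (MvPolynomial.aeval_algebraMap_apply _ y G).symm
  let φ : Y.F →ₐ[k] Fr (MvPowerSeries (Fin r) M) := { γ with commutes' := h3 }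
  have hgX : X.On Y.g := ((hS _ _).1 (Var.on_gL (X := Y.var))).1
  have e3 := hX.val_map b hb _ _ φ Y.g hgX
  have e4 := hX.val_smul b hb _ (φ ∘ Y.g) u (hgX.mapL φ) hu
  have e5 : u • (φ ∘ Y.g) = fun i => algebraMap (MvPowerSeries (Fin r) M) _ (y i) :=
    funext fun i => (h4 i).symm
  rw [e5, e3, h, e2, hx1] at e4
  exact rs_mvf_injective (Fin r) (e1.symm.trans e4.symm)

theorem lf_inv {A B : Type} [Field A] [Field B] {γ : A →+* B} (h : Function.Bijective γ)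
    {l : ℕ} {a : BR A} (hp : Prim l (rs γ a)) : Prim l a :=
  ⟨hp.choose, res_injective_of_bijective h
    ((map_nsmul (rs γ) _ a).trans (hp.choose_spec.trans (map_zero _).symm))⟩

theorem lf_pw {K ι : Type} [Field K] {Θ : MP ι K} {F : Type} [Field F] [Algebra (RF ι K) F]
    (R : MuC Θ F) {l s : ℕ} (h : R.m = l ^ s) : Prim l (cls F R.c) := by
  have := Module.Finite.of_restrictScalars_finite (RF ι K) F R.E
  have := IsGalois.tower_top_of_isGalois (RF ι K) F R.E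
  refine ⟨s, (cls_pow R.coc _).symm.trans ?_⟩
  rw [← h, show R.c ^ R.m = 1 from funext R.pow]
  exact cls_one

theorem lf_lef [Infinite k] (hK : ThmKp) (h9 : ThmK9) (hR : RESH) (hC : CHFp) (hN : N1p) (hM : GMF)
    (hE : EV) {n : ℕ} (hX : X.Nice n) {σ : Type} [Fintype σ] (hσ : Fintype.card σ + 2 = n)
    {c : Chart k (Option σ) X.N (X.IK k)} {Φ : MP (Option σ) k} (hs : c.SM Φ)
    (h1 : MvPolynomial.constantCoeff Φ ≠ 0) (h0 : MvPolynomial.constantCoeff (c.brs Φ) ≠ 0)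
    (hY : Y.var.Nice (n - 1)) {f : Fm X.N k} (hS : X.Sec Y f) {c' : Chart k σ X.N (Y.var.IK k)}
    (hh : c.IsHyp c') (hs' : c'.SM (hyp0 Φ)) {l : ℕ} (hl : l.Prime) (hl0 : (l : k) ≠ 0)
    {T : Type} [Field T] [Algebra (RF (Option (Option σ)) k) T]
    [FiniteDimensional (RF (Option (Option σ)) k) T] [IsGalois (RF (Option (Option σ)) k) T]
    (hU : UnrOff (RF (Option (Option σ)) k) (toE (MP (Option (Option σ)) k) T) (c.brs Φ))
    (hT : (c.χ.map (toE (MP (Option (Option σ)) k) T)).Splits) (hz : KZ l c.toPChart Φ T)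
    (hZ : ZLat l (c.brs Φ) T) {a : BR Y.F} (ha : a ∈ Y.var.Bw) (hp : Prim l a) :
    ∃ b, X.Mt Y a b ∧ Prim l b := by
  have hσ' : Fintype.card (Option σ) + 1 = n := by rw [Fintype.card_option]; omega
  obtain ⟨hG, F', _, _, _, θ, γ, hF⟩ := lf_fld hC hX c hσ'
  obtain ⟨hG', FY, _, _, _, θY, γY, hFY⟩ := lf_fld (X := Y.var) hC hY c' (by omega)
  have eX := hE k X n hX (by omega)
  have eY := hE k Y.var (n - 1) hY (by omega)
  have hΘ : hyp (c.brs Φ) ≠ 0 := fun e => h0 (by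
    simpa using map_dvd MvPolynomial.constantCoeff (hyp_eq_zero.1 e))
  have hΦ : hyp0 Φ ≠ 0 := fun e => h1 (by
    simpa using map_dvd MvPolynomial.constantCoeff (hyp0_eq_zero.1 e))
  obtain ⟨TH, _, _, _, _, w, ρ, r1, r2, r3⟩ := hR k σ _ T _ _ _ _ (isFr_alg _ _)
    (isFr_alg _ (RF (Option σ) k)) hΘ hU
  have hu : ∀ v : Vl FY, Triv ((toE (MP (Option σ) k) FY).comp MvPolynomial.C) v →
      Unram v (rs γY a) := fun v hv => lf_unr eY hFY ha hv
  have eb := hh.p.brs Φ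
  obtain ⟨R₀, e₀, ⟨s₀, hs₀⟩, hL₀⟩ : ∃ R : MuC (hyp (c.brs Φ)) FY, cls FY R.c = rs γY a ∧
      (∃ r, R.m = l ^ r) ∧ LOver k σ l T R.E := by
    rw [← eb]
    exact h9 k σ c.toPChart Φ c'.toPChart T TH w ρ FY θY l hG (hM k _ _ _ c Φ lf_hom hs) hh.p hG'
      (hM k _ _ _ c' _ (lf_hom (X := Y.var)) hs') hΦ hFY.ff hl hl0 hT hz (lf_res r1) r2 (eb ▸ r3)
      _ (lf_prim _ hp) (lf_hk1 eY hFY ha) (lf_hk2 eY hFY hG' ha)
  obtain ⟨R', j, r, hR', ⟨s, hm⟩, j1, j2, j3, j4⟩ := R₀.exists_rich hl hl0 hs₀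
  have := Module.Finite.of_restrictScalars_finite (RF (Option σ) k) FY R₀.E
  have := IsGalois.tower_top_of_isGalois (RF (Option σ) k) FY R₀.E
  have := Module.Finite.of_restrictScalars_finite (RF (Option σ) k) FY R'.E
  have := IsGalois.tower_top_of_isGalois (RF (Option σ) k) FY R'.E
  have e' : cls FY R'.c = rs γY a := by
    rw [j3, ← rs_cls (RingHom.id FY) (j := (j : R₀.E →+* R'.E)) j1 j2 R₀.coc, e₀]
    exact res_id _
  obtain ⟨R, ⟨Lf⟩⟩ := exists_liftF hZ hh.p hG hT hF.ff hFY.ff R' (hL₀.enl j R'.m_ne j4)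
  obtain ⟨b, hb'⟩ : ∃ b, rs γ b = cls F' R.c := res_surjective_of_bijective hF.bij _
  have hpb : Prim l b := lf_inv hF.bij (hb' ▸ lf_pw R (Lf.m_eq.trans hm))
  obtain ⟨r₀, hD⟩ := lf_brs c.toPChart Φ
  have hb : b ∈ X.Bw := lf_mem hK hC hN hM hX hσ' hF hG h0 hD R hb'.symm hl hl0 hpb
    fun P W v hP hd hW hv => lf_vert Lf hl0 hR' (fun v hv => e' ▸ hu v hv) hP hd hW hv
  refine ⟨b, lf_match eX eY hS ha hb ?_, hpb⟩
  obtain ⟨γ₁, hg, e1⟩ := lf_gen hF hG hh.p hFY.ff hFY.alg hΘ hD Lf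
  have e3 := rs_mvf_injective Unit (((congrArg _ e'.symm).trans (e1.symm.trans
    ((congrArg _ hb'.symm).trans (lf_comp _ _ b)))).trans (eX.spec b hb FY Unit _ _ hg))
  obtain ⟨d1, u, hu, d2⟩ := hFY.dom
  let φ : Y.F →ₐ[k] FY := { γY with commutes' := d1 }
  have hgX : X.On Y.g := ((hS _ _).1 (Var.on_gL (X := Y.var))).1
  have e4 := eX.val_smul b hb _ (φ ∘ Y.g) u (hgX.mapL φ) hu
  have e5 : u • (φ ∘ Y.g) = c.pv (algebraMap k FY)
      (ext0 fun i => toE (MP (Option σ) k) FY (MvPolynomial.X i)) θY := funext fun i => by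
    have h2 : algebraMap k FY = (toE (MP (Option σ) k) FY).comp MvPolynomial.C :=
      RingHom.ext hFY.alg
    rw [Chart.pv, ← ev_hyp, ← hh.pp, h2]
    exact (d2 i).symm
  rw [e5, ← e3, eX.val_map b hb _ _ φ Y.g hgX] at e4
  exact res_injective_of_bijective hFY.bij e4.symm

theorem lefl_of (hK : ThmKp) (h0 : K0EX) (h9 : ThmK9) (hZ : ThmZL) (hR : RESH) (hC : CHFp)
    (hN : N1p) (hM : GMF) (hE : EV) : LEFl := by
  intro k _ _ X n hX hn σ _ hσ Λ hΛ J c Φ hc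
  have hd : ∀ l, l ∣ Λ → (l : k) ≠ 0 := fun l hl u => hΛ (by
    obtain ⟨m, rfl⟩ := hl
    rw [Nat.cast_mul, u, zero_mul])
  have hb : MvPolynomial.constantCoeff (c.brs Φ) ≠ 0 := by
    rw [PChart.brs, map_mul, up, MvPolynomial.constantCoeff_rename]
    exact mul_ne_zero hc.Ψ0 hc.Φ0
  obtain ⟨T, _, _, _, _, h1, h2, h3⟩ := h0 k _ c.toPChart Φ
    (hC k X n hX k _ c (by rw [Fintype.card_option]; omega)).1 (hM k _ _ _ c Φ lf_hom hc.sm)
    (fun u => hc.Φ0 (by rw [u, map_zero])) Λ.primeFactors fun l hl =>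
      ⟨Nat.prime_of_mem_primeFactors hl, hd l (Nat.dvd_of_mem_primeFactors hl)⟩
  obtain ⟨δ, hδ, H⟩ := hZ k σ _ T _ _ Λ (by omega) (isFr_alg _ _) hb h1 hΛ
  refine ⟨δ, hδ, fun a' u1 a μ u2 u3 u4 => (H a' u1 a μ u2 u3 u4).mono
    fun ε hε c' L L' Y c'' e hL hs hY hS hh hs' l hl hlΛ α hα hp => ?_⟩
  obtain ⟨T', _, _, _, _, hT, hU⟩ := lf_tw (L := L) (L' := L') hL.inv h1
  have hz := zlat_tw (hε l hl hlΛ) hL.inv e hT
  rw [← hL.brs] at hU hz
  exact lf_lef hK h9 hR hC hN hM hE hX hσ hs (by rw [constantCoeff_aff]; exact hc.Φ0)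
    (by rw [hL.brs, constantCoeff_aff]; exact hb) hY hS hh hs' hl (hd l hlΛ) hU (lf_spl hL hT h2)
    (lf_kz hL hT (h3 l (Nat.mem_primeFactors.2 ⟨hl, hlΛ, fun u => hΛ (by rw [u, Nat.cast_zero])⟩)))
    hz hα hp

end Pool.Agent.ZCy.F
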